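import Pool.Agent.Helper48.HHG.B4

/-!
Module B5: infinitely many conjugacy classes of elements of order three in the quotient.
-/

universe u v

namespace MPb95792

section

variable {M : Type u} [Group M] (α : M →* MulAut SurfaceGroup)

theorem act_inv_self (m : M) (x : SurfaceGroup) : α m (α m⁻¹ x) = x := by
  rw [map_inv, MulAut.apply_inv_self]

theorem act_self_inv (m : M) (x : SurfaceGroup) : α m⁻¹ (α m x) = x := by
  rw [map_inv, MulAut.inv_apply_self]

/-- Elements acting trivially on the homomorphisms to the affine group. -/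
def TK (K : ℕ) : Subgroup M where
  carrier := {m | ∀ (f : SurfaceGroup →* Aff (Lam K)) (x : SurfaceGroup), f (α m x) = f x}
  one_mem' := by
    intro f x
    simp
  mul_mem' := by
    intro m n hm hn f x
    rw [map_mul, MulAut.mul_apply, hm, hn]
  inv_mem' := by
    intro m hm f x
    rw [← hm f (α m⁻¹ x), map_inv, MulAut.apply_inv_self]

instance (K : ℕ) : (TK α K).Normal := ⟨by
  intro n hn g f x
  rw [map_mul, map_mul, MulAut.mul_apply, MulAut.mul_apply]
  have h := hn (f.comp (α g).toMonoidHom) (α g⁻¹ x)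
  change f (α g (α n (α g⁻¹ x))) = f (α g (α g⁻¹ x)) at h
  rw [h, map_inv, MulAut.apply_inv_self]⟩

/-- Elements acting as an inner automorphism on the homomorphisms to the affine group. -/
def TK' (K : ℕ) : Subgroup M where
  carrier := {m | ∃ g : SurfaceGroup, ∀ (f : SurfaceGroup →* Aff (Lam K)) (x : SurfaceGroup),
    f (α m x) = f (g * x * g⁻¹)}
  one_mem' := by
    refine ⟨1, fun f x => ?_⟩
    simp
  mul_mem' := by
    rintro m n ⟨g, hg⟩ ⟨g', hg'⟩
    refine ⟨g * g', fun f x => ?_⟩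
    have h := hg' (f.comp (MulAut.conj g).toMonoidHom) x
    change f (g * α n x * g⁻¹) = f (g * (g' * x * g'⁻¹) * g⁻¹) at h
    rw [map_mul, MulAut.mul_apply, hg, h]
    congr 1
    group
  inv_mem' := by
    rintro m ⟨g, hg⟩
    refine ⟨g⁻¹, fun f x => ?_⟩
    have h := hg (f.comp (MulAut.conj g⁻¹).toMonoidHom) (α m⁻¹ x)
    change f (g⁻¹ * α m (α m⁻¹ x) * g⁻¹⁻¹) = f (g⁻¹ * (g * α m⁻¹ x * g⁻¹) * g⁻¹⁻¹) at h
    have h2 : g⁻¹ * (g * α m⁻¹ x * g⁻¹) * g⁻¹⁻¹ = α m⁻¹ x := by group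
    rw [h2] at h
    rw [← h, map_inv, MulAut.apply_inv_self]

instance (K : ℕ) : (TK' α K).Normal := ⟨by
  rintro n ⟨g, hg⟩ m
  refine ⟨α m g, fun f x => ?_⟩
  have h := hg (f.comp (α m).toMonoidHom) (α m⁻¹ x)
  change f (α m (α n (α m⁻¹ x))) = f (α m (g * α m⁻¹ x * g⁻¹)) at h
  have h5 : α m (g * α m⁻¹ x * g⁻¹) = α m g * x * (α m g)⁻¹ := by
    rw [map_mul, map_mul, map_inv (α m), act_inv_self]
  rw [h5] at h
  rw [map_mul, map_mul, MulAut.mul_apply, MulAut.mul_apply, h]⟩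

end

/-- Homomorphisms to the affine group kill the powers of `γ₀` divisible by `K`. -/
theorem map_gam_pow (K n : ℕ) (hn : K ∣ n) (f : SurfaceGroup →* Aff (Lam K)) :
    f gam ^ n = 1 := by
  have h1 : (f gam).u = 1 := by rw [gam, map_com, Aff.com_u]
  obtain ⟨c, rfl⟩ := hn
  have h2 := Aff.pow_v (f gam) h1 (K * c)
  have h3 : ((K * c : ℕ) : Lam K) = 0 := by
    have : ((K : ℕ) : ZMod K) = 0 := ZMod.natCast_self K
    have h4 : ((K : ℕ) : Lam K) = LaurentPolynomial.C ((K : ℕ) : ZMod K) := by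
      rw [map_natCast]
    rw [Nat.cast_mul, h4, this, map_zero, zero_mul]
  ext
  · rw [h2.1]; rfl
  · rw [h2.2, h3, zero_mul]; rfl

theorem map_twist (K n : ℕ) (hn : K ∣ n) (f : SurfaceGroup →* Aff (Lam K))
    (x : SurfaceGroup) : f (twist n x) = f x := by
  have h : f.comp (twistHom n) = f := by
    have hg : f gam ^ (n : ℤ) = 1 := by rw [zpow_natCast]; exact map_gam_pow K n hn f
    apply surface_hom_ext
    intro i
    fin_cases i
    · change f (twistHom n (gn 0)) = f (gn 0)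
      rw [twistHom_zero', map_mul, map_mul, map_inv, map_zpow, hg]; simp
    · change f (twistHom n (gn 1)) = f (gn 1)
      rw [twistHom_one', map_mul, map_mul, map_inv, map_zpow, hg]; simp
    · change f (twistHom n (gn 2)) = f (gn 2)
      rw [twistHom_two']
    · change f (twistHom n (gn 3)) = f (gn 3)
      rw [twistHom_three']
  exact DFunLike.congr_fun h x

theorem natCast_ne {a b : ℕ} (h0 : 0 < a) (h : a < b) : (a : ZMod b) ≠ 0 := by
  intro h1
  rw [ZMod.natCast_eq_zero_iff] at h1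
  exact absurd (Nat.le_of_dvd h0 h1) (by omega)

section

variable {M : Type u} [Group M] (α : M →* MulAut SurfaceGroup) (push : SurfaceGroup →* M)
  (h1 : ∀ x, α (push x) = MulAut.conj x) (h2 : ∀ m x, m * push x * m⁻¹ = push (α m x))
  (t : M) (ht : α t = TT)

include h1 ht in
theorem closure_le_TK (K : ℕ) :
    Subgroup.normalClosure ({push gam ^ (3 * K), t ^ (9 * K)} : Set M) ≤ TK α (3 * K) := by
  apply Subgroup.normalClosure_le_normal
  rintro m (rfl | hm)
  · intro f x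
    rw [← map_pow, h1, MulAut.conj_apply, map_mul, map_mul, map_inv, map_pow,
      map_gam_pow _ _ dvd_rfl]
    simp
  · rw [Set.mem_singleton_iff] at hm
    subst hm
    intro f x
    rw [map_pow, ht, TT_pow, map_twist]
    exact ⟨3, by ring⟩

include h1 ht in
theorem closure_le_TK' (K : ℕ) :
    Subgroup.normalClosure ({push gam ^ (3 * K), t ^ (9 * K)} : Set M) ≤ TK' α (9 * K) := by
  apply Subgroup.normalClosure_le_normal
  rintro m (rfl | hm)
  · refine ⟨gam ^ (3 * K), fun f x => ?_⟩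
    rw [← map_pow, h1, MulAut.conj_apply]
  · rw [Set.mem_singleton_iff] at hm
    subst hm
    refine ⟨1, fun f x => ?_⟩
    rw [map_pow, ht, TT_pow, map_twist]
    · simp
    · exact dvd_rfl

/-- The elements which become torsion. -/
def UU (s : M) (K : ℕ) : M := push gam ^ K * (s * t ^ (3 * K) * s⁻¹)

include h2 in
theorem push_map_mem {N : Subgroup M} [hN : N.Normal] (m : M) {x : SurfaceGroup}
    (hx : push x ∈ N) : push (α m x) ∈ N := by
  rw [← h2]
  exact hN.conj_mem _ hx _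

theorem push_twist_mem {N : Subgroup M} [hN : N.Normal] {n : ℕ} (hg : push gam ^ n ∈ N)
    (x : SurfaceGroup) : push (twist n x * x⁻¹) ∈ N := by
  let q : SurfaceGroup →* M ⧸ N := (QuotientGroup.mk' N).comp push
  have hq : ∀ x, q x = 1 ↔ push x ∈ N := fun x => QuotientGroup.eq_one_iff (push x)
  have h : q.comp (twistHom n) = q := by
    have hg' : q gam ^ (n : ℤ) = 1 := by
      rw [zpow_natCast, ← map_pow, hq, map_pow]
      exact hg
    apply surface_hom_ext
    intro i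
    fin_cases i
    · change q (twistHom n (gn 0)) = q (gn 0)
      rw [twistHom_zero', map_mul, map_mul, map_inv, map_zpow, hg']
      simp
    · change q (twistHom n (gn 1)) = q (gn 1)
      rw [twistHom_one', map_mul, map_mul, map_inv, map_zpow, hg']
      simp
    · change q (twistHom n (gn 2)) = q (gn 2)
      rw [twistHom_two']
    · change q (twistHom n (gn 3)) = q (gn 3)
      rw [twistHom_three']
  have h3 : q (twist n x) = q x := DFunLike.congr_fun h x
  rw [← hq, map_mul, map_inv, h3, mul_inv_cancel]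

include h2 ht in
theorem UU_comm {N : Subgroup M} [hN : N.Normal] (s : M) (K : ℕ)
    (hmem : push gam ^ (3 * K) ∈ N) :
    Commute (QuotientGroup.mk' N (push gam ^ K))
      (QuotientGroup.mk' N (s * t ^ (3 * K) * s⁻¹)) := by
  have hq : ∀ m, QuotientGroup.mk' N m = 1 ↔ m ∈ N := fun m => QuotientGroup.eq_one_iff m
  have h3 : (s * t ^ (3 * K) * s⁻¹) * push (gam ^ K) * (s * t ^ (3 * K) * s⁻¹)⁻¹ *
      (push (gam ^ K))⁻¹ ∈ N := by
    rw [h2, ← map_inv, ← map_mul]
    have h4 : α (s * t ^ (3 * K) * s⁻¹) (gam ^ K) * (gam ^ K)⁻¹ =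
        α s (twist (3 * K : ℕ) (α s⁻¹ (gam ^ K)) * (α s⁻¹ (gam ^ K))⁻¹) := by
      rw [map_mul α, map_mul α, map_pow α, ht, TT_pow, MulAut.mul_apply, MulAut.mul_apply,
        map_mul (α s), map_inv (α s) (α s⁻¹ (gam ^ K)), act_inv_self]
    rw [h4]
    exact push_map_mem α push h2 s (push_twist_mem push hmem _)
  rw [← hq, map_mul, map_mul, map_mul, map_inv, map_inv, mul_inv_eq_one,
    mul_inv_eq_iff_eq_mul, map_pow push] at h3
  exact h3.symm

include h2 ht in
theorem UU_cube {N : Subgroup M} [hN : N.Normal] (s : M) (K : ℕ)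
    (hmem : push gam ^ (3 * K) ∈ N) (hmem' : t ^ (9 * K) ∈ N) :
    QuotientGroup.mk' N (UU push t s K) ^ 3 = 1 := by
  have hc := UU_comm α push h2 t ht s K hmem
  have hq : ∀ m, QuotientGroup.mk' N m = 1 ↔ m ∈ N := fun m => QuotientGroup.eq_one_iff m
  rw [← hq] at hmem hmem'
  have e1 : QuotientGroup.mk' N (push gam ^ K) ^ 3 = 1 := by
    rw [← map_pow, ← pow_mul, mul_comm K 3, hmem]
  have e2 : QuotientGroup.mk' N (s * t ^ (3 * K) * s⁻¹) ^ 3 = 1 := by
    rw [← map_pow, conj_pow, ← pow_mul, show 3 * K * 3 = 9 * K by ring, map_mul, map_mul,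
      hmem', mul_one, ← map_mul, mul_inv_cancel, map_one]
  rw [UU, map_mul, hc.mul_pow, e1, e2, one_mul]

include h1 h2 ht in
theorem propP_left {K : ℕ} (hK : 0 < K) {h s s' : M}
    (hc : h * UU push t s K * h⁻¹ * (UU push t s' K)⁻¹ ∈
      Subgroup.normalClosure ({push gam ^ (3 * K), t ^ (9 * K)} : Set M)) :
    PropP (α h) := by
  have hc' := closure_le_TK α push h1 t ht K hc
  -- the twist factors are trivial
  have ht3 : t ^ (3 * K) ∈ TK α (3 * K) := by
    intro f x
    rw [map_pow, ht, TT_pow, map_twist]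
    exact dvd_rfl
  let q : M →* M ⧸ TK α (3 * K) := QuotientGroup.mk' _
  have hq : ∀ m, q m = 1 ↔ m ∈ TK α (3 * K) := fun m => QuotientGroup.eq_one_iff m
  have hqU : ∀ s, q (UU push t s K) = q (push gam ^ K) := by
    intro s
    rw [UU, map_mul, map_mul, map_mul, (hq _).2 ht3, mul_one, ← map_mul, mul_inv_cancel,
      map_one, mul_one]
  have h5 : h * push gam ^ K * h⁻¹ * (push gam ^ K)⁻¹ ∈ TK α (3 * K) := by
    rw [← hq] at hc' ⊢
    rw [map_mul, map_mul, map_mul, map_inv q (UU push t s' K), hqU, hqU] at hc'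
    rw [map_mul, map_mul, map_mul, map_inv q (push gam ^ K)]
    exact hc'
  rw [← map_pow, h2, ← map_inv, ← map_mul] at h5
  apply propP_of_com (3 * K) K (natCast_ne hK (by omega)) (α h)
  intro f x
  have h6 := h5 f x
  rw [h1, MulAut.conj_apply] at h6
  rw [← map_pow, com, map_mul, h6, ← map_mul, mul_inv_cancel, map_one]

include h1 h2 ht in
theorem propP_right {K : ℕ} (hK : 0 < K) {h s s' : M}
    (hc : h * UU push t s K * h⁻¹ * (UU push t s' K)⁻¹ ∈
      Subgroup.normalClosure ({push gam ^ (3 * K), t ^ (9 * K)} : Set M)) :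
    PropP (α (s'⁻¹ * h * s)) := by
  have hc' := closure_le_TK' α push h1 t ht K hc
  have hp : ∀ x, push x ∈ TK' α (9 * K) := by
    intro x
    refine ⟨x, fun f y => ?_⟩
    rw [h1, MulAut.conj_apply]
  let q : M →* M ⧸ TK' α (9 * K) := QuotientGroup.mk' _
  have hq : ∀ m, q m = 1 ↔ m ∈ TK' α (9 * K) := fun m => QuotientGroup.eq_one_iff m
  have hqU : ∀ s, q (UU push t s K) = q (s * t ^ (3 * K) * s⁻¹) := by
    intro s
    rw [UU, map_mul, ← map_pow, (hq _).2 (hp _), one_mul]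
  have h5 : h * (s * t ^ (3 * K) * s⁻¹) * h⁻¹ * (s' * t ^ (3 * K) * s'⁻¹)⁻¹ ∈
      TK' α (9 * K) := by
    rw [← hq] at hc' ⊢
    rw [map_mul, map_mul, map_mul, map_inv q (UU push t s' K), hqU, hqU] at hc'
    rw [map_mul, map_mul, map_mul, map_inv q (s' * t ^ (3 * K) * s'⁻¹)]
    exact hc'
  have h6 : s'⁻¹ * (h * (s * t ^ (3 * K) * s⁻¹) * h⁻¹ * (s' * t ^ (3 * K) * s'⁻¹)⁻¹) * s'⁻¹⁻¹ ∈
      TK' α (9 * K) := Subgroup.Normal.conj_mem inferInstance _ h5 _
  have h7 : s'⁻¹ * (h * (s * t ^ (3 * K) * s⁻¹) * h⁻¹ * (s' * t ^ (3 * K) * s'⁻¹)⁻¹) * s'⁻¹⁻¹ =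
      (s'⁻¹ * h * s) * t ^ (3 * K) * (s'⁻¹ * h * s)⁻¹ * (t ^ (3 * K))⁻¹ := by
    group
  rw [h7] at h6
  obtain ⟨g, hg⟩ := h6
  apply propP_of_twist (9 * K) (3 * K) (natCast_ne (by omega) (by omega)) _ g
  intro f y
  have h8 := hg f (twist (3 * K : ℕ) y)
  rw [← h8]
  congr 1
  rw [map_mul α _ (t ^ (3 * K))⁻¹, map_mul α _ (s'⁻¹ * h * s)⁻¹, map_mul α _ (t ^ (3 * K)),
    MulAut.mul_apply, MulAut.mul_apply, MulAut.mul_apply, map_inv α (t ^ (3 * K)), map_pow α,
    ht, TT_pow, MulAut.inv_apply_self, map_inv α (s'⁻¹ * h * s)]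

include h1 h2 ht in
theorem infinitely_many (hα : ∀ m, α m ∈ MCG21) (s : ℕ → M)
    (hs : ∀ k : ℕ, α (s k) = SK (k + 2)) {K : ℕ} (hK : 0 < K) :
    ∃ u : ℕ → M ⧸ Subgroup.normalClosure ({push gam ^ (3 * K), t ^ (9 * K)} : Set M),
      (∀ k, u k ^ 3 = 1) ∧ ∀ k l, IsConj (u k) (u l) → k = l := by
  have hm1 : push gam ^ (3 * K) ∈
      Subgroup.normalClosure ({push gam ^ (3 * K), t ^ (9 * K)} : Set M) :=
    Subgroup.subset_normalClosure (Set.mem_insert _ _)
  have hm2 : t ^ (9 * K) ∈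
      Subgroup.normalClosure ({push gam ^ (3 * K), t ^ (9 * K)} : Set M) :=
    Subgroup.subset_normalClosure (Set.mem_insert_of_mem _ rfl)
  let q := QuotientGroup.mk'
    (Subgroup.normalClosure ({push gam ^ (3 * K), t ^ (9 * K)} : Set M))
  have hq : ∀ m, q m = 1 ↔
    m ∈ Subgroup.normalClosure ({push gam ^ (3 * K), t ^ (9 * K)} : Set M) :=
    fun m => QuotientGroup.eq_one_iff m
  refine ⟨fun k => q (UU push t (s k) K), fun k => UU_cube α push h2 t ht _ K hm1 hm2, ?_⟩
  intro k l hkl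
  rw [isConj_iff] at hkl
  obtain ⟨c, hc⟩ := hkl
  obtain ⟨h, rfl⟩ := QuotientGroup.mk'_surjective _ c
  have hc2 : h * UU push t (s k) K * h⁻¹ * (UU push t (s l) K)⁻¹ ∈
      Subgroup.normalClosure ({push gam ^ (3 * K), t ^ (9 * K)} : Set M) := by
    rw [← hq, map_mul, map_mul, map_mul, map_inv, map_inv, mul_inv_eq_one]
    exact hc
  have hP1 := propP_left α push h1 h2 t ht hK hc2
  have hP2 := propP_right α push h1 h2 t ht hK hc2
  have hF1 := FF_left (hα h) (hα (s k)) hP1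
  have hF2 := FF_right (hα ((s l)⁻¹ * h * s k)) (hα (s l)) hP2
  have heq : α h * α (s k) = α (s l) * α ((s l)⁻¹ * h * s k) := by
    rw [← map_mul, ← map_mul]
    congr 1
    group
  rw [← heq] at hF2
  rw [hs l, FF_SK] at hF2
  rw [hs k, FF_SK] at hF1
  rw [hs k] at hF2
  omega

end

end MPb95792
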