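import Pool.Agent.Helper48.HHG.Pointed

/-! Module A1: from a hierarchically hyperbolic structure to a pointed one. -/

universe u v

namespace MPb95792

theorem setDist_le_dist {Y : Type u} [MetricSpace Y] {A B : Set Y} {a b : Y} (ha : a ∈ A)
    (hb : b ∈ B) : setDist A B ≤ dist a b := by
  refine csInf_le ⟨0, ?_⟩ ⟨a, ha, b, hb, rfl⟩
  rintro r ⟨a', _, b', _, rfl⟩
  exact dist_nonneg

theorem dist_le_of_setDist {Y : Type u} [MetricSpace Y] {A B : Set Y} {ξ ξ' k : ℝ}
    (hA : DiamLE A ξ) (hB : DiamLE B ξ') (h : setDist A B ≤ k) {a b : Y} (ha : a ∈ A)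
    (hb : b ∈ B) : dist a b ≤ k + 1 + ξ + ξ' := by
  have hne : {r : ℝ | ∃ a ∈ A, ∃ b ∈ B, r = dist a b}.Nonempty := ⟨_, a, ha, b, hb, rfl⟩
  obtain ⟨r, ⟨a', ha', b', hb', rfl⟩, hlt⟩ := exists_lt_of_csInf_lt hne
    (show sInf {r : ℝ | ∃ a ∈ A, ∃ b ∈ B, r = dist a b} < k + 1 by
      unfold setDist at h; linarith)
  have h1 := hA a ha a' ha'
  have h2 := hB b' hb' b hb
  have h3 := dist_triangle a a' b
  have h4 := dist_triangle a' b' b
  linarith

theorem dist_le_of_infDist {Y : Type u} [MetricSpace Y] {B : Set Y} {ξ' k : ℝ}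
    (hB : DiamLE B ξ') {a b : Y} (hb : b ∈ B) (h : Metric.infDist a B ≤ k) :
    dist a b ≤ k + 1 + ξ' := by
  obtain ⟨b', hb', hlt⟩ := (Metric.infDist_lt_iff ⟨b, hb⟩).1
    (show Metric.infDist a B < k + 1 by linarith)
  have h2 := hB b' hb' b hb
  have h4 := dist_triangle a b' b
  linarith

/-- Choose points in all projections and relative projections. -/
theorem exists_pointed {X : Type u} [MetricSpace X] [Nonempty X] (D : HHData X)
    (h : IsHHS D) :
    ∃ H : PHHS D, (∀ W x, H.p W x ∈ D.proj W x) ∧
      (∃ K : ℝ, ∀ W x y, dist (H.p W x) (H.p W y) ≤ K * dist x y + K) ∧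
      (∀ κ : ℝ, ∃ θ : ℝ, ∀ x y : X,
        (∀ V, dist (H.p V x) (H.p V y) ≤ κ) → dist x y ≤ θ) := by
  classical
  obtain ⟨δ, hδ, hhyp⟩ := h.hyperbolic
  obtain ⟨ξ, K, hproj⟩ := h.projections
  obtain ⟨ξr, hrho⟩ := h.rho_bounded
  obtain ⟨Er, hdn⟩ := h.rhoDown_nonempty
  obtain ⟨κ₀, hc1, hc2, hc3⟩ := h.consistency
  obtain ⟨n, hchain⟩ := h.finite_complexity
  obtain ⟨lam, El, hlam, hlinks⟩ := h.large_links
  obtain ⟨Eb, hEb, hbgi⟩ := h.bounded_geodesic_image
  obtain ⟨α, hpr⟩ := h.partial_realization
  obtain ⟨x₀⟩ := (inferInstance : Nonempty X)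
  -- points
  choose p hp using fun (W : D.Idx) (x : X) => ((hproj W).1 x).1
  set r : ∀ (V W : D.Idx), D.C W := fun V W =>
    if hne : (D.rho V W).Nonempty then hne.some else p W x₀ with hr
  have hrmem : ∀ V W : D.Idx, (D.rho V W).Nonempty → r V W ∈ D.rho V W := by
    intro V W hne
    simp only [hr, dif_pos hne]
    exact hne.some_mem
  set dn : ∀ (W V : D.Idx), D.C W → D.C V := fun W V y =>
    if hne : (D.rhoDown W V y).Nonempty then hne.some else p V x₀ with hdndef
  have hdnmem : ∀ (W V : D.Idx) (y : D.C W), (D.rhoDown W V y).Nonempty →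
      dn W V y ∈ D.rhoDown W V y := by
    intro W V y hne
    simp only [hdndef, dif_pos hne]
    exact hne.some_mem
  -- the constant
  set E : ℝ := |ξ| + |ξ| + |ξr| + |ξr| + |K| + |Er| + |κ₀| + |El| + |Eb| + |α| + 1 with hE
  have e1 := abs_nonneg ξ
  have e2 := abs_nonneg ξr
  have e3 := abs_nonneg K
  have e4 := abs_nonneg Er
  have e5 := abs_nonneg κ₀
  have e6 := abs_nonneg El
  have e7 := abs_nonneg Eb
  have e8 := abs_nonneg α
  have f1 := le_abs_self ξ
  have f2 := le_abs_self ξr
  have f3 := le_abs_self K
  have f4 := le_abs_self Er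
  have f5 := le_abs_self κ₀
  have f6 := le_abs_self El
  have f7 := le_abs_self Eb
  have f8 := le_abs_self α
  have trsymm : ∀ V W : D.Idx, D.transverse V W → D.transverse W V := by
    rintro V W ⟨h1, h2, h3⟩
    exact ⟨fun ho => h1 (h.orth_symm _ _ ho), h3, h2⟩
  have hdiamp : ∀ (W : D.Idx) (x : X), DiamLE (D.proj W x) ξ := fun W x => ((hproj W).1 x).2
  have htop : IsEmpty D.Idx ∨ ∃ S : D.Idx, ∀ W : D.Idx, W ≤ S := by
    rcases h.maximal with he | ⟨S, hS, huniq⟩
    · exact Or.inl he
    · refine Or.inr ⟨S, fun W => ?_⟩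
      by_contra hWS
      have claim : ∀ k : ℕ, ∃ (s : Finset D.Idx) (t : D.Idx), IsChain (· ≤ ·) (s : Set D.Idx) ∧
          s.card = k + 1 ∧ (∀ a ∈ s, a ≤ t) ∧ W ≤ t := by
        intro k
        induction k with
        | zero =>
          refine ⟨{W}, W, ?_, by simp, by simp, le_rfl⟩
          simp [IsChain]
        | succ k ih =>
          obtain ⟨s, t, hs, hcard, hle, hWt⟩ := ih
          have hnm : ¬ IsMax t := by
            intro hm
            have : t = S := huniq t hm
            rw [this] at hWt
            exact hWS hWt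
          rw [not_isMax_iff] at hnm
          obtain ⟨t', htt'⟩ := hnm
          refine ⟨insert t' s, t', ?_, ?_, ?_, hWt.trans htt'.le⟩
          · rw [Finset.coe_insert]
            refine hs.insert fun b hb _ => Or.inr ?_
            exact (hle b hb).trans htt'.le
          · rw [Finset.card_insert_of_notMem, hcard]
            intro hmem
            exact absurd (hle t' hmem) (not_le_of_gt htt')
          · intro a ha
            rcases Finset.mem_insert.1 ha with rfl | ha
            · exact le_rfl
            · exact (hle a ha).trans htt'.le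
      obtain ⟨s, t, hs, hcard, _, _⟩ := claim n
      have := hchain s hs
      omega
  let H : PHHS D :=
    { p := p
      r := r
      dn := dn
      E := E
      δ := δ
      n := n
      f := fun d => ⌊lam * d + lam⌋₊
      E_nonneg := by rw [hE]; linarith
      δ_nonneg := hδ
      geod := fun W => (hhyp W).1
      hyp := fun W => (hhyp W).2
      top := htop
      orth_symm := h.orth_symm
      orth_nest := h.orth_nest
      orth_not_le := fun V W ho => (h.orth_not_nest V W ho).1
      containers := h.containers
      cons_tr := by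
        intro V W htr x
        have hr1 := hrho V W (Or.inr htr)
        have hr2 := hrho W V (Or.inr (trsymm V W htr))
        rcases min_le_iff.1 (hc1 V W htr x) with h1 | h1
        · left
          have := dist_le_of_setDist (hdiamp W x) hr1.2 h1 (hp W x) (hrmem V W hr1.1)
          rw [hE]; linarith
        · right
          have := dist_le_of_setDist (hdiamp V x) hr2.2 h1 (hp V x) (hrmem W V hr2.1)
          rw [hE]; linarith
      cons_nest := by
        intro V W hlt x
        have hr1 := hrho V W (Or.inl hlt)
        rcases hc2 V W hlt x with h1 | h1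
        · left
          have := dist_le_of_setDist (hdiamp W x) hr1.2 h1 (hp W x) (hrmem V W hr1.1)
          rw [hE]; linarith
        · by_cases hne : (D.rhoDown W V (p W x)).Nonempty
          · right
            have := h1 (p V x) (Or.inl (hp V x)) (dn W V (p W x)) (Or.inr (by
              simp only [Set.mem_iUnion]
              exact ⟨p W x, hp W x, hdnmem W V _ hne⟩))
            rw [hE]; linarith
          · left
            have h2 : Metric.infDist (p W x) (D.rho V W) ≤ Er := by
              by_contra hcon
              exact hne (hdn V W hlt _ (not_le.1 hcon))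
            have := dist_le_of_infDist hr1.2 (hrmem V W hr1.1) h2
            rw [hE]; linarith
      rho_cons := by
        intro U V W hUV hVW
        have h1 := hc3 U V W hUV hVW
        have hV : V < W ∨ D.transverse V W := hVW.imp_right And.left
        have hU : U < W ∨ D.transverse U W := by
          rcases hVW with h2 | ⟨⟨h2, h3, h4⟩, h5⟩
          · exact Or.inl (lt_of_le_of_lt hUV h2)
          · by_cases hUW : U ≤ W
            · left
              refine lt_of_le_of_ne hUW ?_
              rintro rfl
              exact h4 hUV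
            · right
              exact ⟨fun ho => h5 (h.orth_symm _ _ ho), hUW, fun hWU => h4 (hWU.trans hUV)⟩
        have hr1 := hrho U W hU
        have hr2 := hrho V W hV
        have := dist_le_of_setDist hr1.2 hr2.2 h1 (hrmem U W hr1.1) (hrmem V W hr2.1)
        rw [hE]; linarith
      chain := hchain
      links := by
        intro W x x' d hd
        obtain ⟨F, hF1, hF2, hF3, _⟩ := hlinks W x x'
        refine ⟨F, ?_, hF2, ?_⟩
        · apply Nat.le_floor
          have h1 : setDist (D.proj W x) (D.proj W x') ≤ d :=
            (setDist_le_dist (hp W x) (hp W x')).trans hd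
          have h2 : lam * setDist (D.proj W x) (D.proj W x') ≤ lam * d :=
            mul_le_mul_of_nonneg_left h1 (by linarith)
          linarith
        · intro T hT
          rcases hF3 T hT with h1 | h1
          · exact Or.inl h1
          · right
            have := dist_le_of_setDist (hdiamp T x) (hdiamp T x') h1.le (hp T x) (hp T x')
            rw [hE]; linarith
      bgi := by
        intro V W hlt γ L hγ hfar
        have hr1 := hrho V W (Or.inl hlt)
        have hnear : ∀ s ∈ Set.Icc (0 : ℝ) L, ∀ c : ℝ, |c| ≤ |Er| + |Eb| →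
            ¬ Metric.infDist (γ s) (D.rho V W) ≤ c := by
          intro s hs c hc hcon
          have h1 := dist_le_of_infDist hr1.2 (hrmem V W hr1.1) hcon
          have h2 := hfar s hs
          have h3 := le_abs_self c
          rw [hE] at h2; linarith
        rcases hbgi V W hlt γ L hγ with h1 | ⟨s, hs, h1⟩
        · have hmem : ∀ s ∈ Set.Icc (0 : ℝ) L, dn W V (γ s) ∈
              (⋃ s ∈ Set.Icc (0 : ℝ) L, D.rhoDown W V (γ s)) := by
            intro s hs
            simp only [Set.mem_iUnion]
            refine ⟨s, hs, hdnmem W V _ (hdn V W hlt _ ?_)⟩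
            exact not_le.1 (hnear s hs Er (by linarith))
          have := h1 _ (hmem 0 ⟨le_rfl, hγ.1⟩) _ (hmem L ⟨hγ.1, le_rfl⟩)
          rw [hE]; linarith
        · exact absurd h1 (hnear s hs Eb (by linarith))
      preal := by
        intro F hF z
        obtain ⟨x, hx1, hx2, hx3⟩ := hpr F hF (fun V => p V (z V)) (fun V _ => by
          unfold HHData.image
          simp only [Set.mem_iUnion]
          exact ⟨z V, hp V (z V)⟩)
        refine ⟨x, fun V hV => ?_, fun V hV W hVW => ?_⟩
        · have h0 : DiamLE ({p V (z V)} : Set (D.C V)) 0 := by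
            intro a ha b hb
            rw [Set.mem_singleton_iff] at ha hb
            rw [ha, hb, dist_self]
          have := dist_le_of_setDist (hdiamp V x) h0 (hx1 V hV) (hp V x) (Set.mem_singleton _)
          rw [hE]; linarith
        · have hr1 := hrho V W hVW
          have h1 : setDist (D.proj W x) (D.rho V W) ≤ α := by
            rcases hVW with h2 | h2
            · exact hx2 V hV W h2
            · exact hx3 V hV W (trsymm V W h2)
          have := dist_le_of_setDist (hdiamp W x) hr1.2 h1 (hp W x) (hrmem V W hr1.1)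
          rw [hE]; linarith
      qconv := by
        intro W x y γ L hγ h0 hL s hs
        have him : ∀ z : X, p W z ∈ D.image W := by
          intro z
          unfold HHData.image
          simp only [Set.mem_iUnion]
          exact ⟨z, hp W z⟩
        have h1 := (hproj W).2.2 γ L hγ (by rw [h0]; exact him x) (by rw [hL]; exact him y) s hs
        obtain ⟨a, ha, hlt⟩ := (Metric.infDist_lt_iff ⟨_, him x⟩).1
          (show Metric.infDist (γ s) (D.image W) < K + 1 by linarith)
        unfold HHData.image at ha
        simp only [Set.mem_iUnion] at ha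
        obtain ⟨z, hz⟩ := ha
        refine ⟨z, ?_⟩
        have h2 := hdiamp W z a hz (p W z) (hp W z)
        have h3 := dist_triangle (γ s) a (p W z)
        rw [hE]; linarith }
  refine ⟨H, hp, ⟨|K| + 1 + |ξ| + |ξ|, fun W x y => ?_⟩, fun κ => ?_⟩
  · have h1 := (hproj W).2.1 x y
    have h2 := dist_le_of_setDist (hdiamp W x) (hdiamp W y) h1 (hp W x) (hp W y)
    have h3 : K * dist x y ≤ |K| * dist x y := mul_le_mul_of_nonneg_right f3 dist_nonneg
    have h4 : 0 ≤ (1 + |ξ| + |ξ|) * dist x y := mul_nonneg (by linarith) dist_nonneg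
    show dist (p W x) (p W y) ≤ _
    nlinarith
  · obtain ⟨θ, hθ⟩ := h.uniqueness (max κ 0 + 1) (by have := le_max_right κ 0; linarith)
    refine ⟨θ, fun x y hxy => ?_⟩
    by_contra hcon
    obtain ⟨V, hV⟩ := hθ x y (not_le.1 hcon).le
    have h1 := setDist_le_dist (hp V x) (hp V y)
    have h2 := hxy V
    have h3 := le_max_left κ 0
    have h4 : dist (p V x) (p V y) ≤ κ := h2
    linarith

end MPb95792
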