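import Pool.Agent.Helper48.HHG.Pointed

/-! Module A2a: levels, orthogonal families, Lemma R, the order on maximal bad elements. -/

universe u v

namespace MPb95792

theorem tri3 {Y : Type u} [MetricSpace Y] (a b c d : Y) :
    dist a d ≤ dist a b + dist b c + dist c d := dist_triangle4 a b c d

theorem tri4 {Y : Type u} [MetricSpace Y] (a b c d e : Y) :
    dist a e ≤ dist a b + dist b c + dist c d + dist d e := by
  have h1 := dist_triangle4 a b c d
  have h2 := dist_triangle a d e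
  linarith

namespace PHHS

variable {X : Type u} {D : HHData X} (H : PHHS D)

theorem exists_chain_of_not_lev (l : ℕ) (V : D.Idx) (h : ¬ Lev D l V) :
    ∃ s : Finset D.Idx, IsChain (· ≤ ·) (s : Set D.Idx) ∧ s.card = l + 1 ∧ ∀ U ∈ s, U ≤ V := by
  classical
  induction l generalizing V with
  | zero =>
    refine ⟨{V}, ?_, by simp, by simp⟩
    rw [Finset.coe_singleton]
    exact Set.pairwise_singleton _ _
  | succ l ih =>
    simp only [Lev, not_forall] at h
    obtain ⟨W, hW, hl⟩ := h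
    obtain ⟨s, hs, hc, hle⟩ := ih W hl
    refine ⟨insert V s, ?_, ?_, ?_⟩
    · rw [Finset.coe_insert]
      refine hs.insert fun U hU _ => Or.inr ((hle U hU).trans hW.le)
    · rw [Finset.card_insert_of_notMem, hc]
      intro hV
      exact absurd (hle V hV) (not_le_of_gt hW)
    · intro U hU
      rcases Finset.mem_insert.1 hU with rfl | hU
      · exact le_rfl
      · exact (hle U hU).trans hW.le

include H

theorem transverse_symm {V W : D.Idx} (h : D.transverse V W) : D.transverse W V :=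
  ⟨fun h' => h.1 (H.orth_symm _ _ h'), h.2.2, h.2.1⟩

/-- All elements have level `n`. -/
theorem lev (V : D.Idx) : Lev D H.n V := by
  by_contra hcon
  obtain ⟨s, hs, hc, -⟩ := exists_chain_of_not_lev H.n V hcon
  have := H.chain s hs
  omega

/-- Pairwise orthogonal families below `V` are bounded by the level of `V`. -/
theorem card_orth_le (l : ℕ) (V : D.Idx) (hV : Lev D l V) (F : Finset D.Idx)
    (hF : ∀ U ∈ F, U ≤ V) (ho : Orth D F) : F.card ≤ l := by
  classical
  induction l generalizing V F with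
  | zero => exact hV.elim
  | succ l ih =>
    by_cases h1 : F.card ≤ 1
    · omega
    · push Not at h1
      obtain ⟨U₁, hU₁, V₁, hV₁, hne⟩ := Finset.one_lt_card.1 h1
      obtain ⟨W, hW, hWc⟩ := H.containers V U₁ (hF _ hU₁)
        ⟨V₁, hF _ hV₁, ho _ hV₁ _ hU₁ (Ne.symm hne)⟩
      have h2 := ih W (hV W hW) (F.erase U₁)
        (fun U hU => hWc U (hF _ (Finset.mem_of_mem_erase hU))
          (ho _ (Finset.mem_of_mem_erase hU) _ hU₁ (Finset.ne_of_mem_erase hU)))
        (fun U hU U' hU' hne => ho _ (Finset.mem_of_mem_erase hU) _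
          (Finset.mem_of_mem_erase hU') hne)
      rw [Finset.card_erase_of_mem hU₁] at h2
      omega

theorem exists_maxBad_aux {b : ∀ W : D.Idx, D.C W} {x : X} {ϑ : ℝ} {V : D.Idx} (k : ℕ) :
    ∀ (W : D.Idx), H.Bad b x ϑ V W → ∀ s : Finset D.Idx, IsChain (· ≤ ·) (s : Set D.Idx) →
      (∀ U ∈ s, U < W) → H.n ≤ s.card + k → ∃ W', W ≤ W' ∧ H.MaxBad b x ϑ V W' := by
  classical
  induction k with
  | zero =>
    intro W _ s hs hlt hn
    exfalso
    have hW : W ∉ s := fun h => lt_irrefl _ (hlt W h)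
    have hch : IsChain (· ≤ ·) ((insert W s : Finset D.Idx) : Set D.Idx) := by
      rw [Finset.coe_insert]
      exact hs.insert fun U hU _ => Or.inr (hlt U hU).le
    have := H.chain _ hch
    rw [Finset.card_insert_of_notMem hW] at this
    omega
  | succ k ih =>
    intro W hW s hs hlt hn
    by_cases hmax : ∀ W', H.Bad b x ϑ V W' → ¬ W < W'
    · exact ⟨W, le_rfl, hW, hmax⟩
    · push Not at hmax
      obtain ⟨W₁, hW₁, hlt₁⟩ := hmax
      have hWs : W ∉ s := fun h => lt_irrefl _ (hlt W h)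
      obtain ⟨W', hle, hmb⟩ := ih W₁ hW₁ (insert W s) (by
          rw [Finset.coe_insert]
          exact hs.insert fun U hU _ => Or.inr (hlt U hU).le)
        (fun U hU => by
          rcases Finset.mem_insert.1 hU with rfl | hU
          · exact hlt₁
          · exact (hlt U hU).trans hlt₁)
        (by rw [Finset.card_insert_of_notMem hWs]; omega)
      exact ⟨W', hlt₁.le.trans hle, hmb⟩

/-- Every bad element is below a maximal bad element. -/
theorem exists_maxBad {b : ∀ W : D.Idx, D.C W} {x : X} {ϑ : ℝ} {V W : D.Idx}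
    (hW : H.Bad b x ϑ V W) : ∃ W', W ≤ W' ∧ H.MaxBad b x ϑ V W' :=
  H.exists_maxBad_aux H.n W hW ∅ (by simp) (by simp) (by simp)

variable {κ : ℝ} {b : ∀ W : D.Idx, D.C W} (hb : H.Consistent κ b)

include hb

theorem exists_PRpt (F : Finset D.Idx) (ho : Orth D F) : ∃ x, H.PRpt κ b F x := by
  choose z hz using hb.near
  obtain ⟨x, h1, h2⟩ := H.preal F ho z
  refine ⟨x, fun V hV => ?_, h2⟩
  have h3 := dist_triangle (b V) (H.p V (z V)) (H.p V x)
  have h4 := h1 V hV
  rw [dist_comm] at h4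
  linarith [hz V]

/-- Lemma R. -/
theorem lemR (x : X) {T W : D.Idx} (h : W < T ∨ D.transverse W T) {d : ℝ}
    (hd : dist (b T) (H.p T x) ≤ d) (hW : κ + 2 * H.E < dist (b W) (H.p W x)) :
    dist (b T) (H.r W T) ≤ d + H.E + κ := by
  have hE := H.E_nonneg
  have hκ := hb.le
  have hd0 : 0 ≤ d := dist_nonneg.trans hd
  rcases h with h | h
  · rcases hb.nest W T h with h1 | h1
    · linarith
    rcases H.cons_nest W T h x with h2 | h2
    · have := dist_triangle (b T) (H.p T x) (H.r W T)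
      linarith
    · obtain ⟨γ, L, hγ, h0, hL⟩ := H.geod T (b T) (H.p T x)
      by_cases hfar : ∀ s ∈ Set.Icc 0 L, H.E < dist (γ s) (H.r W T)
      · exfalso
        have h3 := H.bgi W T h γ L hγ hfar
        rw [h0, hL] at h3
        have h4 := tri3 (b W) (H.dn T W (b T)) (H.dn T W (H.p T x)) (H.p W x)
        rw [dist_comm (H.p W x)] at h2
        linarith
      · push Not at hfar
        obtain ⟨s, hs, hsE⟩ := hfar
        have h3 := hγ.2 0 ⟨le_rfl, hγ.1⟩ s hs
        have h4 := hγ.2 0 ⟨le_rfl, hγ.1⟩ L ⟨hγ.1, le_rfl⟩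
        rw [h0] at h3 h4
        rw [hL] at h4
        rw [zero_sub, abs_neg, abs_of_nonneg hs.1] at h3
        rw [zero_sub, abs_neg, abs_of_nonneg hγ.1] at h4
        have h5 := dist_triangle (b T) (γ s) (H.r W T)
        linarith [hs.2]
  · rcases hb.tr W T h with h1 | h1
    · linarith
    rcases H.cons_tr W T h x with h2 | h2
    · have := dist_triangle (b T) (H.p T x) (H.r W T)
      linarith
    · exfalso
      have h3 := dist_triangle_right (b W) (H.p W x) (H.r T W)
      linarith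

theorem before_total {x : X} {ϑ : ℝ} (hϑ : κ + 3 * H.E ≤ ϑ) {W W' : D.Idx}
    (ht : D.transverse W W') (hW : ϑ < dist (b W) (H.p W x))
    (hW' : ϑ < dist (b W') (H.p W' x)) :
    H.Before κ b x W W' ∨ H.Before κ b x W' W := by
  have hE := H.E_nonneg
  rcases hb.tr W W' ht with h1 | h1 <;> rcases H.cons_tr W W' ht x with h2 | h2
  · have := dist_triangle_right (b W') (H.p W' x) (H.r W W')
    linarith
  · exact Or.inr ⟨H.transverse_symm ht, h1, h2⟩
  · exact Or.inl ⟨ht, h1, h2⟩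
  · have := dist_triangle_right (b W) (H.p W x) (H.r W' W)
    linarith

theorem before_asymm {x : X} {ϑ : ℝ} (hϑ : κ + 3 * H.E ≤ ϑ) {W W' : D.Idx}
    (hW : ϑ < dist (b W) (H.p W x)) (h : H.Before κ b x W W') :
    ¬ H.Before κ b x W' W := by
  intro h'
  have hE := H.E_nonneg
  have := dist_triangle_right (b W) (H.p W x) (H.r W' W)
  linarith [h.2.1, h'.2.2]

/-- The order on maximal bad elements is transitive. -/
theorem before_trans {x : X} {ϑ : ℝ} (hϑ : κ + 3 * H.E ≤ ϑ) {V W₁ W₂ W₃ : D.Idx}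
    (h₁ : H.MaxBad b x ϑ V W₁) (h₂ : H.MaxBad b x ϑ V W₂) (h₃ : H.MaxBad b x ϑ V W₃)
    (h₁₂ : H.Before κ b x W₁ W₂) (h₂₃ : H.Before κ b x W₂ W₃) :
    H.Before κ b x W₁ W₃ := by
  classical
  have hE := H.E_nonneg
  have hb1 := h₁.1.2
  have hb2 := h₂.1.2
  have hb3 := h₃.1.2
  by_cases h13 : W₁ = W₃
  · exfalso
    subst h13
    exact H.before_asymm hb hϑ hb1 h₁₂ h₂₃
  have hn1 : ¬ W₁ ≤ W₃ := fun h => h₁.2 W₃ h₃.1 (lt_of_le_of_ne h h13)
  have hn2 : ¬ W₃ ≤ W₁ := fun h => h₃.2 W₁ h₁.1 (lt_of_le_of_ne h (Ne.symm h13))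
  have hno : ¬ D.orth W₁ W₃ := by
    intro ho
    obtain ⟨z, -, hz⟩ := H.exists_PRpt hb {W₁, W₃} (by
      intro U hU U' hU' hne
      simp only [Finset.mem_insert, Finset.mem_singleton] at hU hU'
      rcases hU with rfl | rfl <;> rcases hU' with rfl | rfl
      · exact (hne rfl).elim
      · exact ho
      · exact H.orth_symm _ _ ho
      · exact (hne rfl).elim)
    have h1 := hz W₁ (by simp) W₂ (Or.inr h₁₂.1)
    have h2 := hz W₃ (by simp) W₂ (Or.inr (H.transverse_symm h₂₃.1))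
    have h3 := tri4 (b W₂) (H.r W₃ W₂) (H.p W₂ z) (H.r W₁ W₂) (H.p W₂ x)
    have h4 := h₂₃.2.1
    have h5 := h₁₂.2.2
    rw [dist_comm (H.p W₂ z) (H.r W₃ W₂)] at h2
    rw [dist_comm (H.p W₂ x) (H.r W₁ W₂)] at h5
    linarith
  have ht : D.transverse W₁ W₃ := ⟨hno, hn1, hn2⟩
  rcases H.before_total hb hϑ ht hb1 hb3 with h | h
  · exact h
  exfalso
  obtain ⟨z, -, hz⟩ := H.exists_PRpt hb {W₂} (by
    intro U hU U' hU' hne
    rw [Finset.mem_singleton] at hU hU'
    subst hU; subst hU'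
    exact (hne rfl).elim)
  have h1 := hz W₂ (by simp) W₁ (Or.inr (H.transverse_symm h₁₂.1))
  have h2 := hz W₂ (by simp) W₃ (Or.inr h₂₃.1)
  rcases H.cons_tr W₁ W₃ ht z with h3 | h3
  · have h4 := tri4 (b W₃) (H.r W₁ W₃) (H.p W₃ z) (H.r W₂ W₃) (H.p W₃ x)
    have h5 := h.2.1
    have h6 := h₂₃.2.2
    rw [dist_comm (H.p W₃ z) (H.r W₁ W₃)] at h3
    rw [dist_comm (H.p W₃ x) (H.r W₂ W₃)] at h6
    linarith
  · have h4 := tri4 (b W₁) (H.r W₂ W₁) (H.p W₁ z) (H.r W₃ W₁) (H.p W₁ x)
    have h5 := h₁₂.2.1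
    have h6 := h.2.2
    rw [dist_comm (H.p W₁ z) (H.r W₂ W₁)] at h1
    rw [dist_comm (H.p W₁ x) (H.r W₃ W₁)] at h6
    linarith

end PHHS

end MPb95792
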