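import Pool.Agent.Helper48.HHG.A2a

/-! Module A2b: bounded chains in the order on maximal bad elements; existence of a last one. -/

universe u v

namespace MPb95792

/-- The bound for chains. -/
def chainM (k : ℕ) : ℕ → ℕ
  | 0 => 0
  | l + 1 => k * max 1 (chainM k l)

namespace PHHS

variable {X : Type u} {D : HHData X} (H : PHHS D)
  {κ : ℝ} {b : ∀ W : D.Idx, D.C W} (hb : H.Consistent κ b)

include hb

theorem chain_bound {x : X} {ϑ : ℝ} (hϑ : κ + 3 * H.E ≤ ϑ) {V : D.Idx} (l : ℕ) (T : D.Idx)
    (hT : Lev D l T) (hTV : T ≤ V) (hbT : dist (b T) (H.p T x) ≤ ϑ)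
    (s : Finset ℕ) (w : ℕ → D.Idx) (hw : ∀ i ∈ s, H.MaxBad b x ϑ V (w i))
    (hlt : ∀ i ∈ s, w i < T)
    (hord : ∀ i ∈ s, ∀ j ∈ s, i < j → H.Before κ b x (w i) (w j)) :
    s.card ≤ chainM (H.f (2 * ϑ + 2 * H.E + κ)) l := by
  classical
  have hE := H.E_nonneg
  induction l generalizing T s with
  | zero => exact hT.elim
  | succ l ih =>
    rcases s.eq_empty_or_nonempty with rfl | hne
    · simp
    set top := s.max' hne with htop
    have htops : top ∈ s := s.max'_mem hne
    obtain ⟨y, hy1, hy2⟩ := H.exists_PRpt hb {w top} (by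
      intro U hU U' hU' hne
      rw [Finset.mem_singleton] at hU hU'
      subst hU; subst hU'
      exact (hne rfl).elim)
    have hy1' := hy1 (w top) (by simp)
    have hy2' := hy2 (w top) (by simp)
    have hbad : ∀ i ∈ s, ϑ < dist (b (w i)) (H.p (w i) x) := fun i hi => (hw i hi).1.2
    have hd : dist (H.p T x) (H.p T y) ≤ 2 * ϑ + 2 * H.E + κ := by
      have h1 := hy2' T (Or.inl (hlt top htops))
      have h2 := H.lemR hb x (Or.inl (hlt top htops)) hbT (by linarith [hbad top htops])
      have h3 := tri3 (H.p T x) (b T) (H.r (w top) T) (H.p T y)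
      rw [dist_comm (b T)] at hbT
      rw [dist_comm (H.p T y)] at h1
      linarith
    obtain ⟨F, hFc, hFT, hF⟩ := H.links T x y _ hd
    have hfar : ∀ i ∈ s, ∃ T' ∈ F, w i ≤ T' := by
      intro i hi
      rcases hF (w i) (hlt i hi) with h | h
      · exact h
      exfalso
      have h1 : dist (b (w i)) (H.p (w i) y) ≤ H.E + κ := by
        rcases (s.le_max' i hi).eq_or_lt with h2 | h2
        · rw [h2]; exact hy1'
        · have h3 := hord i hi top htops h2
          have h4 := hy2' (w i) (Or.inr (H.transverse_symm h3.1))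
          have h5 := dist_triangle_right (b (w i)) (H.p (w i) y) (H.r (w top) (w i))
          linarith [h3.2.1]
      have h2 := dist_triangle (b (w i)) (H.p (w i) y) (H.p (w i) x)
      rw [dist_comm (H.p (w i) y)] at h2
      linarith [hbad i hi]
    have hsub : s ⊆ F.biUnion fun T' => s.filter fun i => w i ≤ T' := by
      intro i hi
      obtain ⟨T', hT', hle⟩ := hfar i hi
      exact Finset.mem_biUnion.2 ⟨T', hT', Finset.mem_filter.2 ⟨hi, hle⟩⟩
    have hcard : ∀ T' ∈ F, (s.filter fun i => w i ≤ T').card ≤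
        max 1 (chainM (H.f (2 * ϑ + 2 * H.E + κ)) l) := by
      intro T' hT'
      by_cases hex : ∃ i₀ ∈ s.filter (fun i => w i ≤ T'), w i₀ = T'
      · obtain ⟨i₀, hi₀, hwi₀⟩ := hex
        refine le_trans ?_ (le_max_left _ _)
        rw [Finset.card_le_one]
        have key : ∀ i ∈ s.filter (fun i => w i ≤ T'), i = i₀ := by
          intro i hi
          rw [Finset.mem_filter] at hi hi₀
          have h1 : w i = w i₀ := by
            rw [hwi₀]
            refine eq_of_le_of_not_lt hi.2 fun h => ?_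
            exact (hw i hi.1).2 T' (hwi₀ ▸ (hw i₀ hi₀.1).1) h
          rcases lt_trichotomy i i₀ with h | h | h
          · exact absurd h1.le (hord i hi.1 i₀ hi₀.1 h).1.2.1
          · exact h
          · exact absurd h1.ge (hord i₀ hi₀.1 i hi.1 h).1.2.1
        intro i hi j hj
        rw [key i hi, key j hj]
      · push Not at hex
        rcases (s.filter fun i => w i ≤ T').eq_empty_or_nonempty with he | ⟨i₁, hi₁⟩
        · rw [he]; simp
        refine le_trans ?_ (le_max_right _ _)
        have hlt' : ∀ i ∈ s.filter (fun i => w i ≤ T'), w i < T' := fun i hi =>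
          lt_of_le_of_ne (Finset.mem_filter.1 hi).2 (hex i hi)
        refine ih T' (hT T' (hFT T' hT')) ((hFT T' hT').le.trans hTV) ?_ _
          (fun i hi => hw i (Finset.mem_filter.1 hi).1) hlt'
          (fun i hi j hj => hord i (Finset.mem_filter.1 hi).1 j (Finset.mem_filter.1 hj).1)
        by_contra hcon
        push Not at hcon
        exact (hw i₁ (Finset.mem_filter.1 hi₁).1).2 T'
          ⟨(hFT T' hT').trans_le hTV, hcon⟩ (hlt' i₁ hi₁)
    calc s.card ≤ (F.biUnion fun T' => s.filter fun i => w i ≤ T').card :=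
          Finset.card_le_card hsub
      _ ≤ F.card * max 1 (chainM (H.f (2 * ϑ + 2 * H.E + κ)) l) :=
          Finset.card_biUnion_le_card_mul _ _ _ hcard
      _ ≤ H.f (2 * ϑ + 2 * H.E + κ) * max 1 (chainM (H.f (2 * ϑ + 2 * H.E + κ)) l) :=
          Nat.mul_le_mul_right _ hFc

/-- There is a last maximal bad element. -/
theorem exists_last {x : X} {ϑ : ℝ} (hϑ : κ + 3 * H.E ≤ ϑ) {V : D.Idx} (l : ℕ)
    (hV : Lev D l V) (hx : dist (b V) (H.p V x) ≤ ϑ) (hne : ∃ W, H.Bad b x ϑ V W) :
    ∃ W', H.MaxBad b x ϑ V W' ∧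
      ∀ W, H.MaxBad b x ϑ V W → ¬ H.Before κ b x W' W := by
  classical
  by_contra hcon
  push Not at hcon
  obtain ⟨W₀, hW₀⟩ := hne
  obtain ⟨W₁, -, hW₁⟩ := H.exists_maxBad hW₀
  choose! g hg1 hg2 using hcon
  set w : ℕ → D.Idx := fun i => g^[i] W₁ with hwdef
  have hwm : ∀ i, H.MaxBad b x ϑ V (w i) := by
    intro i
    induction i with
    | zero => exact hW₁
    | succ i ih =>
      simp only [hwdef, Function.iterate_succ_apply']
      exact hg1 _ ih
  have hstep : ∀ i, H.Before κ b x (w i) (w (i + 1)) := by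
    intro i
    have := hg2 _ (hwm i)
    simpa only [hwdef, Function.iterate_succ_apply'] using this
  have hord : ∀ i j, i < j → H.Before κ b x (w i) (w j) := by
    intro i j hij
    induction j with
    | zero => omega
    | succ j ih =>
      rcases (Nat.lt_succ_iff.1 hij).eq_or_lt with h | h
      · rw [h]; exact hstep j
      · exact H.before_trans hb hϑ (hwm i) (hwm j) (hwm (j + 1)) (ih h) (hstep j)
  have h1 := H.chain_bound hb hϑ l V hV le_rfl hx
    (Finset.range (chainM (H.f (2 * ϑ + 2 * H.E + κ)) l + 1)) w (fun i _ => hwm i)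
    (fun i _ => (hwm i).1.1) (fun i _ j _ hij => hord i j hij)
  rw [Finset.card_range] at h1
  omega

end PHHS

end MPb95792
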