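import Pool.Agent.Helper48.HHG.A2b

/-! Module A2c: the realization theorem. -/

universe u v

namespace MPb95792

namespace PHHS

variable {X : Type u} {D : HHData X} (H : PHHS D)

open scoped Classical in
/-- One step of the construction. -/
theorem step {κ : ℝ} {b : ∀ W : D.Idx, D.C W} (hb : H.Consistent κ b)
    {x : X} {ϑ θ : ℝ} (hϑ : κ + 3 * H.E ≤ ϑ) {V W' : D.Idx} {F F' : Finset D.Idx}
    (hver : H.Verified κ b ϑ V F) (hx : dist (b V) (H.p V x) ≤ ϑ)
    (hW' : H.MaxBad b x ϑ V W')
    (hlast : ∀ W, H.MaxBad b x ϑ V W → ¬ H.Before κ b x W' W)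
    (hF' : ∀ U ∈ F', U ≤ W') (hgood : H.Good κ b θ W' F') :
    H.Verified κ b (max θ (ϑ + 3 * H.E + κ)) V (F ∪ F') := by
  have hE := H.E_nonneg
  have hκ := hb.le
  intro x' hx' T hT hex
  have hPF : H.PRpt κ b F x' :=
    ⟨fun U hU => hx'.1 U (Finset.mem_union_left _ hU),
      fun U hU => hx'.2 U (Finset.mem_union_left _ hU)⟩
  have hPF' : H.PRpt κ b F' x' :=
    ⟨fun U hU => hx'.1 U (Finset.mem_union_right _ hU),
      fun U hU => hx'.2 U (Finset.mem_union_right _ hU)⟩
  by_cases h : ∃ U ∈ F, ¬ D.orth T U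
  · refine le_trans (hver x' hPF T hT h) (le_trans ?_ (le_max_right _ _))
    linarith
  obtain ⟨U', hU', hno⟩ := hex
  have hU'F : U' ∈ F' := by
    rcases Finset.mem_union.1 hU' with h1 | h1
    · exact absurd ⟨U', h1, hno⟩ h
    · exact h1
  by_cases hTW : T ≤ W'
  · exact le_trans (hgood x' hPF' T hTW) (le_max_left _ _)
  have hUW : U' ≤ W' := hF' U' hU'F
  have hnoW : ¬ D.orth T W' := fun ho =>
    hno (H.orth_symm _ _ (H.orth_nest U' W' T hUW (H.orth_symm _ _ ho)))
  have hcase : W' < T ∨ D.transverse W' T := by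
    by_cases h1 : W' ≤ T
    · exact Or.inl (lt_of_le_of_ne h1 (fun he => hTW he.ge))
    · exact Or.inr ⟨fun ho => hnoW (H.orth_symm _ _ ho), h1, hTW⟩
  have hcaseU : U' < T ∨ D.transverse U' T := by
    by_cases h1 : U' ≤ T
    · exact Or.inl (lt_of_le_of_ne h1 (fun he => hTW (he ▸ hUW)))
    · exact Or.inr ⟨fun ho => hno (H.orth_symm _ _ ho), h1, fun h2 => hTW (h2.trans hUW)⟩
  have hpx' : dist (H.p T x') (H.r U' T) ≤ H.E := hx'.2 U' hU' T hcaseU
  have hrr : dist (H.r U' T) (H.r W' T) ≤ H.E := by
    apply H.rho_cons U' W' T hUW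
    rcases hcase with h1 | h1
    · exact Or.inl h1
    · exact Or.inr ⟨h1, hno⟩
  have key : dist (b T) (H.r W' T) ≤ ϑ + H.E + κ := by
    by_cases hd : dist (b T) (H.p T x) ≤ ϑ
    · exact H.lemR hb x hcase hd (by have := hW'.1.2; linarith)
    push Not at hd
    have hTV : T < V := lt_of_le_of_ne hT (by
      rintro rfl
      exact absurd hx (not_le.2 hd))
    have hbad : H.Bad b x ϑ V T := ⟨hTV, hd⟩
    have htr : D.transverse W' T := by
      rcases hcase with h1 | h1
      · exact absurd h1 (hW'.2 T hbad)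
      · exact h1
    obtain ⟨T', hTT', hT'⟩ := H.exists_maxBad hbad
    have htr' : D.transverse T' W' := by
      refine ⟨fun ho => hnoW (H.orth_nest T T' W' hTT' ho), fun h1 => hTW (hTT'.trans h1),
        fun h1 => ?_⟩
      have hne : W' ≠ T' := by
        rintro rfl
        exact hTW hTT'
      exact hW'.2 T' hT'.1 (lt_of_le_of_ne h1 hne)
    rcases H.before_total hb hϑ htr' hT'.1.2 hW'.1.2 with hB | hB
    · have h1 : dist (H.r T W') (H.r T' W') ≤ H.E :=
        H.rho_cons T T' W' hTT' (Or.inr ⟨htr', fun ho => hnoW (H.orth_symm _ _ ho)⟩)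
      rcases hb.tr W' T htr with h2 | h2
      · linarith
      · exfalso
        have h3 := hW'.1.2
        have h4 := hB.2.2
        have h5 : dist (b W') (H.p W' x) ≤
            dist (b W') (H.r T W') + dist (H.r T W') (H.r T' W') +
              dist (H.r T' W') (H.p W' x) := dist_triangle4 _ _ _ _
        rw [dist_comm (H.r T' W') (H.p W' x)] at h5
        linarith
    · exact absurd hB (hlast T' hT')
  have h5 : dist (b T) (H.p T x') ≤
      dist (b T) (H.r W' T) + dist (H.r W' T) (H.r U' T) + dist (H.r U' T) (H.p T x') :=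
    dist_triangle4 _ _ _ _
  rw [dist_comm (H.r U' T) (H.p T x'), dist_comm (H.r W' T) (H.r U' T)] at h5
  exact le_trans (by linarith) (le_max_right _ _)

/-- The sequence of constants in the proof of the realization theorem. -/
noncomputable def thc (κ θ : ℝ) : ℕ → ℝ
  | 0 => max (κ + 3 * H.E) 0
  | j + 1 => max θ (thc κ θ j + 3 * H.E + κ)

theorem thc_mono {κ θ : ℝ} (hκ : H.E ≤ κ) : Monotone (H.thc κ θ) := by
  have hE := H.E_nonneg
  apply monotone_nat_of_le_succ
  intro j
  rw [thc]
  exact le_trans (by linarith) (le_max_right _ _)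

open scoped Classical in
/-- The inductive form of the realization theorem. -/
theorem realization_aux (l : ℕ) (κ : ℝ) : ∃ θ : ℝ, ∀ b : (∀ W : D.Idx, D.C W),
    H.Consistent κ b → ∀ V : D.Idx, Lev D l V →
    ∃ F : Finset D.Idx, F.Nonempty ∧ Orth D F ∧ (∀ U ∈ F, U ≤ V) ∧ H.Good κ b θ V F := by
  induction l with
  | zero => exact ⟨0, fun b _ V hV => absurd hV (by simp [Lev])⟩
  | succ l ih =>
    obtain ⟨θ, hθ⟩ := ih
    refine ⟨H.thc κ θ (l + 2), ?_⟩
    intro b hb V hV
    have hE := H.E_nonneg
    have hκ := hb.le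
    have hmono : Monotone (H.thc κ θ) := H.thc_mono hκ
    have h0 : ∀ j, κ + 3 * H.E ≤ H.thc κ θ j := by
      intro j
      refine le_trans ?_ (hmono (Nat.zero_le j))
      rw [thc]
      exact le_max_left _ _
    have claim : ∀ j : ℕ,
        (∃ i < j, ∃ F : Finset D.Idx, F.Nonempty ∧ Orth D F ∧ (∀ U ∈ F, U ≤ V) ∧
          H.Good κ b (H.thc κ θ i) V F) ∨
        (∃ F : Finset D.Idx, j ≤ F.card ∧ Orth D F ∧ (∀ U ∈ F, U ≤ V) ∧
          H.Verified κ b (H.thc κ θ j) V F) := by
      intro j
      induction j with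
      | zero =>
        right
        refine ⟨∅, le_rfl, ?_, ?_, ?_⟩
        · intro U hU
          simp at hU
        · intro U hU
          simp at hU
        · rintro x - T - ⟨U, hU, -⟩
          simp at hU
      | succ j ihj =>
        rcases ihj with ⟨i, hi, hF⟩ | ⟨F, hcard, ho, hFV, hver⟩
        · exact Or.inl ⟨i, by omega, hF⟩
        -- the nonempty version of F
        obtain ⟨G, hGne, hGo, hGV, hGF⟩ : ∃ G : Finset D.Idx, G.Nonempty ∧ Orth D G ∧
            (∀ U ∈ G, U ≤ V) ∧ ((F = ∅ ∧ G = {V}) ∨ (F.Nonempty ∧ G = F)) := by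
          rcases F.eq_empty_or_nonempty with he | hne
          · refine ⟨{V}, Finset.singleton_nonempty V, ?_, ?_, Or.inl ⟨he, rfl⟩⟩
            · intro U hU W hW hUW
              rw [Finset.mem_singleton] at hU hW
              exact absurd (hU.trans hW.symm) hUW
            · intro U hU
              rw [Finset.mem_singleton] at hU
              exact hU.le
          · exact ⟨F, hne, ho, hFV, Or.inr ⟨hne, rfl⟩⟩
        by_cases hg : H.Good κ b (H.thc κ θ j) V G
        · exact Or.inl ⟨j, by omega, G, hGne, hGo, hGV, hg⟩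
        right
        unfold Good at hg
        push Not at hg
        obtain ⟨x, hx, T, hTV, hT⟩ := hg
        have hPF : H.PRpt κ b F x := by
          rcases hGF with ⟨he, -⟩ | ⟨-, hG⟩
          · rw [he]
            constructor
            · intro U hU
              simp at hU
            · intro U hU
              simp at hU
          · rw [← hG]
            exact hx
        have hxV : dist (b V) (H.p V x) ≤ H.thc κ θ j := by
          rcases hGF with ⟨-, hG⟩ | ⟨⟨U, hU⟩, hG⟩
          · have h1 := hx.1 V (by rw [hG]; exact Finset.mem_singleton_self V)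
            have h2 := h0 j
            linarith
          · exact hver x hPF V le_rfl
              ⟨U, hU, fun h1 => H.orth_not_le _ _ (H.orth_symm _ _ h1) (hFV U hU)⟩
        have hTlt : T < V := lt_of_le_of_ne hTV (by
          rintro rfl
          exact absurd hxV (not_le.2 hT))
        obtain ⟨W', hW', hlast⟩ := H.exists_last hb (h0 j) (l + 1) hV hxV ⟨T, hTlt, hT⟩
        have hLW : Lev D l W' := hV W' hW'.1.1
        obtain ⟨F', hF'ne, hF'o, hF'W, hF'g⟩ := hθ b hb W' hLW
        have horth : ∀ U ∈ F, ∀ U' ∈ F', D.orth U' U := by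
          intro U hU U' hU'
          apply H.orth_nest U' W' U (hF'W U' hU')
          by_contra hno
          have h1 := hver x hPF W' hW'.1.1.le ⟨U, hU, hno⟩
          exact absurd h1 (not_le.2 hW'.1.2)
        have hdisj : Disjoint F F' := by
          rw [Finset.disjoint_left]
          intro U hU hU'
          exact H.orth_not_le U U (horth U hU U hU') le_rfl
        refine ⟨F ∪ F', ?_, ?_, ?_, ?_⟩
        · rw [Finset.card_union_of_disjoint hdisj]
          have := hF'ne.card_pos
          omega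
        · intro U hU W hW hUW
          rcases Finset.mem_union.1 hU with h1 | h1 <;> rcases Finset.mem_union.1 hW with h2 | h2
          · exact ho U h1 W h2 hUW
          · exact H.orth_symm _ _ (horth U h1 W h2)
          · exact horth W h2 U h1
          · exact hF'o U h1 W h2 hUW
        · intro U hU
          rcases Finset.mem_union.1 hU with h1 | h1
          · exact hFV U h1
          · exact (hF'W U h1).trans hW'.1.1.le
        · rw [thc]
          exact H.step hb (h0 j) hver hxV hW' hlast hF'W hF'g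
    rcases claim (l + 2) with ⟨i, hi, F, hne, ho, hFV, hg⟩ | ⟨F, hcard, ho, hFV, -⟩
    · exact ⟨F, hne, ho, hFV, fun x hx T hT => (hg x hx T hT).trans (hmono hi.le)⟩
    · have := H.card_orth_le (l + 1) V hV F hFV ho
      omega

/-- Realization theorem. -/
theorem realization [Nonempty X] (κ : ℝ) : ∃ θ : ℝ, ∀ b : (∀ W : D.Idx, D.C W),
    H.Consistent κ b → ∃ x : X, ∀ U, dist (b U) (H.p U x) ≤ θ := by
  obtain ⟨θ, hθ⟩ := H.realization_aux H.n κ
  refine ⟨θ, fun b hb => ?_⟩
  rcases H.top with he | ⟨S, hS⟩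
  · exact ⟨Classical.arbitrary X, fun U => (he.false U).elim⟩
  · obtain ⟨F, -, ho, -, hg⟩ := hθ b hb S (H.lev S)
    obtain ⟨x, hx⟩ := H.exists_PRpt hb F ho
    exact ⟨x, fun U => hg x hx U (hS U)⟩

end PHHS

end MPb95792
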