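import Pool.Agent.Helper48.HHG.Pointed

/-! Module A3: centers in hyperbolic spaces. -/

universe u v

namespace MPb95792

variable {Y : Type u} [MetricSpace Y]

theorem exists_center {δ : ℝ} (hδ : 0 ≤ δ) (hY : FourPoint δ Y) (hg : GeodesicSpace Y)
    (p₁ p₂ p₃ : Y) : ∃ (γ : ℝ → Y) (L s : ℝ), IsGeodesic γ L ∧ γ 0 = p₁ ∧ γ L = p₂ ∧
      s ∈ Set.Icc 0 L ∧ IsCenter (2 * δ) p₁ p₂ p₃ (γ s) := by
  obtain ⟨γ, L, hγ, h0, h1⟩ := hg p₁ p₂
  have hL0 := hγ.1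
  have mem0 : (0 : ℝ) ∈ Set.Icc 0 L := ⟨le_rfl, hL0⟩
  have memL : L ∈ Set.Icc 0 L := ⟨hL0, le_rfl⟩
  have hL : dist p₁ p₂ = L := by
    have := hγ.2 0 mem0 L memL
    rw [h0, h1] at this
    rw [this, zero_sub, abs_neg, abs_of_nonneg hL0]
  have t1 := dist_triangle p₁ p₃ p₂
  have t2 := dist_triangle p₂ p₁ p₃
  have t3 := dist_triangle p₁ p₂ p₃
  have c1 := dist_comm p₃ p₂
  have c2 := dist_comm p₂ p₁
  set s : ℝ := (dist p₁ p₂ + dist p₁ p₃ - dist p₂ p₃) / 2 with hs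
  have s0 : 0 ≤ s := by rw [hs]; linarith
  have sL : s ≤ L := by rw [hs]; linarith
  have hsm : s ∈ Set.Icc 0 L := ⟨s0, sL⟩
  refine ⟨γ, L, s, hγ, h0, h1, hsm, ?_⟩
  have e1 : dist p₁ (γ s) = s := by
    have := hγ.2 0 mem0 s hsm
    rw [h0] at this
    rw [this, zero_sub, abs_neg, abs_of_nonneg s0]
  have e2 : dist (γ s) p₂ = L - s := by
    have := hγ.2 s hsm L memL
    rw [h1] at this
    rw [this, abs_sub_comm, abs_of_nonneg (by linarith)]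
  have e3 : dist p₂ (γ s) = L - s := by rw [dist_comm]; exact e2
  have h4 := hY p₁ (γ s) p₂ p₃
  have h5 : max (dist p₁ (γ s) + dist p₂ p₃) (dist p₁ p₃ + dist (γ s) p₂) ≤
      (dist p₁ p₂ + dist p₁ p₃ + dist p₂ p₃) / 2 := by
    apply max_le
    · rw [e1, hs]; linarith
    · rw [e2, hs]; linarith
  refine ⟨?_, ?_, ?_⟩
  · rw [e1, e2]; linarith
  · rw [e1]; linarith
  · rw [e3]; linarith

namespace IsCenter

variable {r : ℝ} {p₁ p₂ p₃ c : Y}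

theorem dist_le {δ : ℝ} (hY : FourPoint δ Y) {c' : Y} (h : IsCenter r p₁ p₂ p₃ c)
    (h' : IsCenter r p₁ p₂ p₃ c') : dist c c' ≤ 2 * r + 2 * δ := by
  obtain ⟨a1, a2, a3⟩ := h
  obtain ⟨b1, b2, b3⟩ := h'
  have t1 := dist_triangle p₂ c p₃
  have t2 := dist_triangle p₁ c p₃
  have t3 := dist_triangle p₂ c' p₃
  have t4 := dist_triangle p₁ c' p₃
  have c1 := dist_comm c p₂
  have c2 := dist_comm c' p₂
  have h4 := hY p₁ c p₂ c'
  have h5 : max (dist p₁ c + dist p₂ c') (dist p₁ c' + dist c p₂) ≤ dist p₁ p₂ + 2 * r := by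
    apply max_le <;> linarith
  linarith

theorem perturb {q₁ q₂ q₃ c' : Y} {s t : ℝ} (h : IsCenter r p₁ p₂ p₃ c)
    (h₁ : dist p₁ q₁ ≤ s) (h₂ : dist p₂ q₂ ≤ s) (h₃ : dist p₃ q₃ ≤ s)
    (hc : dist c c' ≤ t) : IsCenter (r + 4 * s + 2 * t) q₁ q₂ q₃ c' := by
  have key : ∀ {p p' q q' : Y}, dist p q ≤ s → dist p' q' ≤ s →
      dist p c + dist c p' ≤ dist p p' + r →
      dist q c' + dist c' q' ≤ dist q q' + (r + 4 * s + 2 * t) := by
    intro p p' q q' g1 g2 g3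
    have t1 := dist_triangle4 q p c c'
    have t2 := dist_triangle4 c' c p' q'
    have t3 := dist_triangle4 p q q' p'
    have c1 := dist_comm q p
    have c2 := dist_comm c' c
    have c3 := dist_comm q' p'
    linarith
  exact ⟨key h₁ h₂ h.1, key h₁ h₃ h.2.1, key h₂ h₃ h.2.2⟩

theorem mono {r' : ℝ} (h : IsCenter r p₁ p₂ p₃ c) (hr : r ≤ r') :
    IsCenter r' p₁ p₂ p₃ c :=
  ⟨h.1.trans (by linarith), h.2.1.trans (by linarith), h.2.2.trans (by linarith)⟩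

/-- Cyclic rotation of the three points. -/
theorem rotate (h : IsCenter r p₁ p₂ p₃ c) : IsCenter r p₂ p₃ p₁ c := by
  obtain ⟨a1, a2, a3⟩ := h
  refine ⟨a3, ?_, ?_⟩
  · rw [dist_comm p₂ c, dist_comm c p₁, dist_comm p₂ p₁]; linarith
  · rw [dist_comm p₃ c, dist_comm c p₁, dist_comm p₃ p₁]; linarith

theorem near₁₂ {s : ℝ} (h : IsCenter r p₁ p₂ p₃ c) (hs : dist p₁ p₂ ≤ s) :
    dist p₁ c ≤ s + r := by
  have := h.1
  have := dist_nonneg (x := c) (y := p₂)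
  linarith

end IsCenter

end MPb95792
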