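import Pool.Agent.Helper48.HHG.A3
import Pool.Agent.Helper48.HHG.A2c

/-! Module A4: coarse medians. -/

universe u v

namespace MPb95792

/-- the center inequality for all pairs of distinct indices -/
theorem IsCenter.pair {Y : Type u} [MetricSpace Y] {r : ℝ} {P : Fin 3 → Y} {c : Y}
    (h : IsCenter r (P 0) (P 1) (P 2) c) (i j : Fin 3) (hij : i ≠ j) :
    dist (P i) c + dist (P j) c ≤ dist (P i) (P j) + r := by
  obtain ⟨a1, a2, a3⟩ := h
  rw [dist_comm c] at a1 a2 a3
  fin_cases i <;> fin_cases j <;> simp only [ne_eq, not_true_eq_false, Fin.zero_eta, Fin.mk_one,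
    Fin.reduceFinMk] at hij ⊢
  · exact a1
  · exact a2
  · rw [dist_comm (P 1) (P 0)]; linarith
  · exact a3
  · rw [dist_comm (P 2) (P 0)]; linarith
  · rw [dist_comm (P 2) (P 1)]; linarith

/-- pigeonhole: either two indices satisfy `A` or two indices do not -/
theorem pigeon3 (A : Fin 3 → Prop) :
    (∃ i j, i ≠ j ∧ A i ∧ A j) ∨ (∃ i j, i ≠ j ∧ ¬ A i ∧ ¬ A j) := by
  by_cases h0 : A 0 <;> by_cases h1 : A 1 <;> by_cases h2 : A 2
  · exact Or.inl ⟨0, 1, by decide, h0, h1⟩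
  · exact Or.inl ⟨0, 1, by decide, h0, h1⟩
  · exact Or.inl ⟨0, 2, by decide, h0, h2⟩
  · exact Or.inr ⟨1, 2, by decide, h1, h2⟩
  · exact Or.inl ⟨1, 2, by decide, h1, h2⟩
  · exact Or.inr ⟨0, 2, by decide, h0, h2⟩
  · exact Or.inr ⟨0, 1, by decide, h0, h1⟩
  · exact Or.inr ⟨0, 1, by decide, h0, h1⟩

namespace PHHS

variable {X : Type u} {D : HHData X} (H : PHHS D)

/-- two of the points close together: the center is close to the first of them -/
theorem pair_near {Y : Type u} [MetricSpace Y] {r s : ℝ} {P : Fin 3 → Y} {c : Y}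
    (h : IsCenter r (P 0) (P 1) (P 2) c) {i j : Fin 3} (hij : i ≠ j) (hs : dist (P i) (P j) ≤ s) :
    dist (P i) c ≤ s + r := by
  have := h.pair i j hij
  have := dist_nonneg (x := P j) (y := c)
  linarith

/-- The tuple of centers of three points is consistent. -/
theorem center_consistent (x₁ x₂ x₃ : X) : ∃ b : (∀ W : D.Idx, D.C W),
    H.Consistent (6 * H.E + 2 * H.δ) b ∧
    ∀ W, IsCenter (2 * H.δ) (H.p W x₁) (H.p W x₂) (H.p W x₃) (b W) := by
  have hE := H.E_nonneg
  have hδ := H.δ_nonneg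
  choose γ L s hγ h0 hL hs hc using fun W : D.Idx =>
    exists_center hδ (H.hyp W) (H.geod W) (H.p W x₁) (H.p W x₂) (H.p W x₃)
  set x : Fin 3 → X := ![x₁, x₂, x₃] with hx
  have hcc : ∀ W, IsCenter (2 * H.δ) (H.p W (x 0)) (H.p W (x 1)) (H.p W (x 2)) (γ W (s W)) := hc
  -- one index close in `W` twice
  have near2 : ∀ (W : D.Idx) (ρ : D.C W) (i j : Fin 3), i ≠ j → dist (H.p W (x i)) ρ ≤ H.E →
      dist (H.p W (x j)) ρ ≤ H.E → dist (γ W (s W)) ρ ≤ 6 * H.E + 2 * H.δ := by
    intro W ρ i j hij h1 h2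
    have h3 : dist (H.p W (x i)) (H.p W (x j)) ≤ 2 * H.E := by
      have := dist_triangle (H.p W (x i)) ρ (H.p W (x j))
      rw [dist_comm ρ] at this
      linarith
    have h4 := pair_near (P := fun i => H.p W (x i)) (hcc W) hij h3
    have h5 := dist_triangle (γ W (s W)) (H.p W (x i)) ρ
    rw [dist_comm (γ W (s W)) (H.p W (x i))] at h5
    linarith
  refine ⟨fun W => γ W (s W), ⟨by linarith, ?_, ?_, ?_⟩, hc⟩
  · -- transverse
    intro V W hVW
    rcases pigeon3 (fun i => dist (H.p W (x i)) (H.r V W) ≤ H.E) with ⟨i, j, hij, h1, h2⟩ | ⟨i, j, hij, h1, h2⟩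
    · exact Or.inl (near2 W _ i j hij h1 h2)
    · exact Or.inr (near2 V _ i j hij ((H.cons_tr V W hVW (x i)).resolve_left h1)
        ((H.cons_tr V W hVW (x j)).resolve_left h2))
  · -- nested
    intro V W hVW
    by_cases hfar : dist (γ W (s W)) (H.r V W) ≤ 6 * H.E + 2 * H.δ
    · exact Or.inl hfar
    right
    push Not at hfar
    -- `A i`: some geodesic from the center to `p_i` meets the neighbourhood
    rcases pigeon3 (fun i => ∃ (η : ℝ → D.C W) (M t : ℝ), IsGeodesic η M ∧ η 0 = γ W (s W) ∧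
        η M = H.p W (x i) ∧ t ∈ Set.Icc 0 M ∧ dist (η t) (H.r V W) ≤ H.E) with
        ⟨i, j, hij, ⟨η, M, t, g1, g2, g3, g4, g5⟩, ⟨η', M', t', g1', g2', g3', g4', g5'⟩⟩ |
        ⟨i, j, hij, h1, h2⟩
    · exfalso
      have hp := (hcc W).pair (P := fun i => H.p W (x i)) i j hij
      have m0 : (0 : ℝ) ∈ Set.Icc 0 M := ⟨le_rfl, g1.1⟩
      have mM : M ∈ Set.Icc 0 M := ⟨g1.1, le_rfl⟩
      have m0' : (0 : ℝ) ∈ Set.Icc 0 M' := ⟨le_rfl, g1'.1⟩
      have mM' : M' ∈ Set.Icc 0 M' := ⟨g1'.1, le_rfl⟩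
      have e1 : dist (H.p W (x i)) (γ W (s W)) = M := by
        rw [← g2, ← g3, g1.2 M mM 0 m0, sub_zero, abs_of_nonneg g1.1]
      have e2 : dist (γ W (s W)) (η t) = t := by
        rw [← g2, g1.2 0 m0 t g4, zero_sub, abs_neg, abs_of_nonneg g4.1]
      have e3 : dist (H.p W (x i)) (η t) = M - t := by
        rw [← g3, g1.2 M mM t g4, abs_of_nonneg (by linarith [g4.2])]
      have e1' : dist (H.p W (x j)) (γ W (s W)) = M' := by
        rw [← g2', ← g3', g1'.2 M' mM' 0 m0', sub_zero, abs_of_nonneg g1'.1]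
      have e2' : dist (γ W (s W)) (η' t') = t' := by
        rw [← g2', g1'.2 0 m0' t' g4', zero_sub, abs_neg, abs_of_nonneg g4'.1]
      have e3' : dist (H.p W (x j)) (η' t') = M' - t' := by
        rw [← g3', g1'.2 M' mM' t' g4', abs_of_nonneg (by linarith [g4'.2])]
      have t1 := dist_triangle4 (H.p W (x i)) (η t) (η' t') (H.p W (x j))
      have t2 := dist_triangle (η t) (H.r V W) (η' t')
      have t3 := dist_triangle (γ W (s W)) (η t) (H.r V W)
      have t4 := dist_triangle (γ W (s W)) (η' t') (H.r V W)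
      have c1 := dist_comm (η' t') (H.p W (x j))
      have c2 := dist_comm (H.r V W) (η' t')
      linarith
    · push Not at h1 h2
      have key : ∀ i : Fin 3, (∀ (η : ℝ → D.C W) (M t : ℝ), IsGeodesic η M → η 0 = γ W (s W) →
          η M = H.p W (x i) → t ∈ Set.Icc 0 M → H.E < dist (η t) (H.r V W)) →
          dist (H.p V (x i)) (H.dn W V (γ W (s W))) ≤ 2 * H.E := by
        intro i hi
        obtain ⟨η, M, g1, g2, g3⟩ := H.geod W (γ W (s W)) (H.p W (x i))
        have hb := H.bgi V W hVW η M g1 (fun t ht => hi η M t g1 g2 g3 ht)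
        rw [g2, g3] at hb
        have hend := hi η M M g1 g2 g3 ⟨g1.1, le_rfl⟩
        rw [g3] at hend
        have hB := (H.cons_nest V W hVW (x i)).resolve_left (not_le.2 hend)
        have t1 := dist_triangle (H.p V (x i)) (H.dn W V (H.p W (x i))) (H.dn W V (γ W (s W)))
        rw [dist_comm (H.dn W V (H.p W (x i)))] at t1
        linarith
      have k1 := key i h1
      have k2 := key j h2
      have h3 : dist (H.p V (x i)) (H.p V (x j)) ≤ 4 * H.E := by
        have := dist_triangle (H.p V (x i)) (H.dn W V (γ W (s W))) (H.p V (x j))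
        rw [dist_comm (H.dn W V (γ W (s W)))] at this
        linarith
      have h4 := pair_near (P := fun i => H.p V (x i)) (hcc V) hij h3
      have h5 := dist_triangle (γ V (s V)) (H.p V (x i)) (H.dn W V (γ W (s W)))
      rw [dist_comm (γ V (s V)) (H.p V (x i))] at h5
      linarith
  · intro W
    obtain ⟨z, hz⟩ := H.qconv W x₁ x₂ (γ W) (L W) (hγ W) (h0 W) (hL W) (s W) (hs W)
    exact ⟨z, by linarith⟩

/-- Coarse medians exist. -/
theorem median [Nonempty X] : ∃ R : ℝ, ∀ x₁ x₂ x₃ : X, ∃ q : X,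
    ∀ W, IsCenter R (H.p W x₁) (H.p W x₂) (H.p W x₃) (H.p W q) := by
  obtain ⟨θ, hθ⟩ := H.realization (6 * H.E + 2 * H.δ)
  refine ⟨2 * H.δ + 4 * 0 + 2 * θ, fun x₁ x₂ x₃ => ?_⟩
  obtain ⟨b, hb, hc⟩ := H.center_consistent x₁ x₂ x₃
  obtain ⟨q, hq⟩ := hθ b hb
  refine ⟨q, fun W => ?_⟩
  exact (hc W).perturb (by simp) (by simp) (by simp) (hq W)

end PHHS

end MPb95792
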