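import Pool.Agent.Helper48.HHG.A1
import Pool.Agent.Helper48.HHG.A4

/-! Module A5: a hierarchically hyperbolic group has finitely many conjugacy classes of
elements of order dividing three. -/

universe u v

namespace MPb95792

/-- Points of two nonempty sets of bounded diameter which are close to each other are close. -/
theorem dist_le_of_setDist_le {Y : Type u} [MetricSpace Y] {A B : Set Y} {ξ k : ℝ}
    (hA : DiamLE A ξ) (hB : DiamLE B ξ) (hAB : setDist A B ≤ k) {a b : Y} (ha : a ∈ A)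
    (hb : b ∈ B) : dist a b ≤ k + 1 + 2 * ξ := by
  have hne : {r : ℝ | ∃ a ∈ A, ∃ b ∈ B, r = dist a b}.Nonempty := ⟨_, a, ha, b, hb, rfl⟩
  have hlt : sInf {r : ℝ | ∃ a ∈ A, ∃ b ∈ B, r = dist a b} < k + 1 := by
    have : setDist A B < k + 1 := by linarith
    exact this
  obtain ⟨r, ⟨a', ha', b', hb', hr⟩, hrk⟩ := exists_lt_of_csInf_lt hne hlt
  have h1 := hA a ha a' ha'
  have h2 := hB b' hb' b hb
  have h3 := dist_triangle4 a a' b' b
  rw [hr] at hrk
  linarith

theorem finite_conj {G : Type v} [Group G] (h : IsHHG.{u, v} G) :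
    ∃ S : Set G, S.Finite ∧ ∀ t : G, t ^ 3 = 1 → ∃ s ∈ S, IsConj t s := by
  obtain ⟨X, mX, D, a, hD, ha⟩ := h
  obtain ⟨x₀, R₀, hcob⟩ := ha.cobounded
  obtain ⟨C₁, hlip, hone, hmul⟩ := ha.quasi_action
  obtain ⟨C₂, hcp⟩ := ha.compat_proj
  have hisoD : ∀ g U p q, dist (a.iso g U p) (a.iso g U q) = dist p q :=
    fun g U => (ha.isometries g U).1
  have : Nonempty X := ⟨x₀⟩
  obtain ⟨H, hmem, ⟨K, hK⟩, huniq⟩ := exists_pointed D hD
  obtain ⟨R, hR⟩ := H.median
  obtain ⟨ξ, K', hproj⟩ := hD.projections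
  have hC10 : 0 ≤ C₁ := le_trans dist_nonneg (hone x₀)
  set C := max C₁ C₂ with hC
  have hCle : C₁ ≤ C := le_max_left _ _
  have hC0 : 0 ≤ C := le_trans hC10 hCle
  replace hlip : ∀ g x y, dist (a.act g x) (a.act g y) ≤ C * dist x y + C := fun g x y =>
    (hlip g x y).trans (by
      have := mul_le_mul_of_nonneg_right hCle (dist_nonneg (x := x) (y := y))
      linarith)
  replace hone : ∀ x, dist (a.act 1 x) x ≤ C := fun x => (hone x).trans hCle
  replace hmul : ∀ g h x, dist (a.act (g * h) x) (a.act g (a.act h x)) ≤ C :=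
    fun g h x => (hmul g h x).trans hCle
  replace hcp : ∀ (g : G) (U : D.Idx) (x : X),
      setDist (D.proj (a.idx g U) (a.act g x)) (a.iso g U '' D.proj U x) ≤ C :=
    fun g U x => (hcp g U x).trans (le_max_right _ _)
  -- the isometries move the chosen points coarsely correctly
  have hiso : ∀ (g : G) (U : D.Idx) (x : X),
      dist (a.iso g U (H.p U x)) (H.p (a.idx g U) (a.act g x)) ≤ C + 1 + 2 * ξ := by
    intro g U x
    rw [dist_comm]
    refine dist_le_of_setDist_le ((hproj (a.idx g U)).1 (a.act g x)).2 ?_ (hcp g U x)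
      (hmem _ _) ⟨_, hmem U x, rfl⟩
    rintro _ ⟨y, hy, rfl⟩ _ ⟨z, hz, rfl⟩
    rw [hisoD]
    exact ((hproj U).1 x).2 y hy z hz
  set M : ℝ := C + 1 + 2 * ξ with hM
  set s : ℝ := M + (K * C + K) with hs
  set R' : ℝ := R + 4 * s + 2 * M with hR'
  obtain ⟨θ, hθ⟩ := huniq (2 * R' + 2 * H.δ)
  refine ⟨{g | dist x₀ (a.act g x₀) ≤ 2 * C + (C * (R₀ + θ + (C * R₀ + C)) + C) +
    ((C * C + C) + C)}, ha.proper x₀ _, ?_⟩
  intro t ht
  -- the median of the orbit
  obtain ⟨q, hq⟩ := hR (a.act 1 x₀) (a.act t x₀) (a.act (t ^ 2) x₀)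
  -- the median is coarsely fixed by t
  have hfix : dist q (a.act t q) ≤ θ := by
    apply hθ
    have key : ∀ U : D.Idx, dist (H.p (a.idx t U) q) (H.p (a.idx t U) (a.act t q)) ≤
        2 * R' + 2 * H.δ := by
      intro U
      have hM0 : 0 ≤ M := le_trans dist_nonneg (hiso t U x₀)
      have hK0 : 0 ≤ K := by
        have := hK U x₀ x₀
        rw [dist_self, dist_self] at this
        linarith
      have hs0 : 0 ≤ s := by
        have : 0 ≤ K * C := mul_nonneg hK0 hC0
        linarith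
      -- one step
      have hstep : ∀ g g' : G, t * g = g' →
          dist (a.iso t U (H.p U (a.act g x₀))) (H.p (a.idx t U) (a.act g' x₀)) ≤ s := by
        intro g g' hg
        have h1 := hiso t U (a.act g x₀)
        have h2 : dist (a.act t (a.act g x₀)) (a.act g' x₀) ≤ C := by
          rw [← hg, dist_comm]
          exact hmul t g x₀
        have h3 := hK (a.idx t U) (a.act t (a.act g x₀)) (a.act g' x₀)
        have h4 : K * dist (a.act t (a.act g x₀)) (a.act g' x₀) ≤ K * C :=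
          mul_le_mul_of_nonneg_left h2 hK0
        have h5 := dist_triangle (a.iso t U (H.p U (a.act g x₀)))
          (H.p (a.idx t U) (a.act t (a.act g x₀))) (H.p (a.idx t U) (a.act g' x₀))
        linarith
      have hc : IsCenter R (a.iso t U (H.p U (a.act 1 x₀))) (a.iso t U (H.p U (a.act t x₀)))
          (a.iso t U (H.p U (a.act (t ^ 2) x₀))) (a.iso t U (H.p U q)) := by
        have := hq U
        unfold IsCenter at this ⊢
        simpa only [hisoD] using this
      have hc' : IsCenter R' (H.p (a.idx t U) (a.act t x₀)) (H.p (a.idx t U) (a.act (t ^ 2) x₀))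
          (H.p (a.idx t U) (a.act 1 x₀)) (H.p (a.idx t U) (a.act t q)) :=
        hc.perturb (hstep 1 t (mul_one t)) (hstep t (t ^ 2) (pow_two t).symm)
          (hstep (t ^ 2) 1 (by rw [← ht]; group)) (hiso t U q)
      have hc'' : IsCenter R' (H.p (a.idx t U) (a.act t x₀)) (H.p (a.idx t U) (a.act (t ^ 2) x₀))
          (H.p (a.idx t U) (a.act 1 x₀)) (H.p (a.idx t U) q) :=
        (hq (a.idx t U)).rotate.mono (by linarith)
      exact hc''.dist_le (H.hyp _) hc'
    intro W
    have := key (a.idx t⁻¹ W)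
    rwa [← ha.index_action.2.1, mul_inv_cancel, ha.index_action.1] at this
  obtain ⟨g, hg⟩ := hcob q
  refine ⟨g⁻¹ * t * g, ?_, ?_⟩
  · show dist x₀ (a.act (g⁻¹ * t * g) x₀) ≤ _
    -- the points of the path
    have e1 : dist x₀ (a.act g⁻¹ (a.act g x₀)) ≤ 2 * C := by
      have h1 := hone x₀
      have h2 := hmul g⁻¹ g x₀
      rw [inv_mul_cancel] at h2
      have h3 := dist_triangle x₀ (a.act 1 x₀) (a.act g⁻¹ (a.act g x₀))
      rw [dist_comm x₀ (a.act 1 x₀)] at h3
      linarith
    have e2 : dist (a.act g x₀) (a.act t (a.act g x₀)) ≤ R₀ + θ + (C * R₀ + C) := by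
      have h1 : dist (a.act t q) (a.act t (a.act g x₀)) ≤ C * R₀ + C := by
        have h2 := hlip t q (a.act g x₀)
        have h3 := mul_le_mul_of_nonneg_left hg hC0
        linarith
      have h2 := dist_triangle4 (a.act g x₀) q (a.act t q) (a.act t (a.act g x₀))
      rw [dist_comm (a.act g x₀) q] at h2
      linarith
    have e3 : dist (a.act g⁻¹ (a.act g x₀)) (a.act g⁻¹ (a.act t (a.act g x₀))) ≤
        C * (R₀ + θ + (C * R₀ + C)) + C := by
      have h1 := hlip g⁻¹ (a.act g x₀) (a.act t (a.act g x₀))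
      have h2 := mul_le_mul_of_nonneg_left e2 hC0
      linarith
    have e4 : dist (a.act g⁻¹ (a.act t (a.act g x₀))) (a.act (g⁻¹ * t * g) x₀) ≤
        (C * C + C) + C := by
      have h1 := hlip g⁻¹ (a.act (t * g) x₀) (a.act t (a.act g x₀))
      have h2 := mul_le_mul_of_nonneg_left (hmul t g x₀) hC0
      have h3 := hmul g⁻¹ (t * g) x₀
      rw [← mul_assoc] at h3
      have h4 := dist_triangle (a.act g⁻¹ (a.act t (a.act g x₀)))
        (a.act g⁻¹ (a.act (t * g) x₀)) (a.act (g⁻¹ * t * g) x₀)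
      have c1 := dist_comm (a.act g⁻¹ (a.act t (a.act g x₀))) (a.act g⁻¹ (a.act (t * g) x₀))
      have c2 := dist_comm (a.act g⁻¹ (a.act (t * g) x₀)) (a.act (g⁻¹ * t * g) x₀)
      linarith
    have e5 := dist_triangle4 x₀ (a.act g⁻¹ (a.act g x₀))
      (a.act g⁻¹ (a.act t (a.act g x₀))) (a.act (g⁻¹ * t * g) x₀)
    linarith
  · rw [isConj_iff]
    exact ⟨g⁻¹, by group⟩

end MPb95792
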