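import Pool.Agent.Helper48.HHG.SDefs

/-!
Module B1: explicit automorphisms of the genus two surface group.
-/

universe u v

namespace MPb95792


/-- The separating curve `[a₁, b₁]`. -/
def gam : SurfaceGroup := com (gn 0) (gn 1)

theorem com_conj {G : Type u} [Group G] (c x y : G) :
    com (c * x * c⁻¹) (c * y * c⁻¹) = c * com x y * c⁻¹ := by
  simp only [com]
  group

theorem map_com {G : Type u} {G' : Type v} [Group G] [Group G'] (f : G →* G') (x y : G) :
    f (com x y) = com (f x) (f y) := by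
  simp only [com, map_mul, map_inv]

theorem surface_rel : com (gn 0) (gn 1) * com (gn 2) (gn 3) = 1 := by
  have h : PresentedGroup.mk ({surfaceRelator} : Set (FreeGroup (Fin 4))) surfaceRelator = 1 :=
    PresentedGroup.one_of_mem rfl
  rw [surfaceRelator, map_mul, map_com, map_com] at h
  exact h

theorem surface_hom_ext {G : Type u} [Group G] {f g : SurfaceGroup →* G}
    (h : ∀ i, f (gn i) = g (gn i)) : f = g :=
  PresentedGroup.ext h

theorem com_two_three : com (gn 2) (gn 3) = gam⁻¹ :=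
  eq_inv_of_mul_eq_one_right surface_rel

/-! ### Twists -/

/-- Powers of the Dehn twist about `γ₀`, as endomorphisms. -/
def twistHom (n : ℤ) : SurfaceGroup →* SurfaceGroup :=
  surfaceLift ![gam ^ n * gn 0 * (gam ^ n)⁻¹, gam ^ n * gn 1 * (gam ^ n)⁻¹, gn 2, gn 3] (by
    change com (gam ^ n * gn 0 * (gam ^ n)⁻¹) (gam ^ n * gn 1 * (gam ^ n)⁻¹) *
      com (gn 2) (gn 3) = 1
    rw [com_conj, com_two_three]
    change gam ^ n * gam * (gam ^ n)⁻¹ * gam⁻¹ = 1
    group)

theorem twistHom_zero' (n : ℤ) : twistHom n (gn 0) = gam ^ n * gn 0 * (gam ^ n)⁻¹ :=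
  surfaceLift_of _ _ 0

theorem twistHom_one' (n : ℤ) : twistHom n (gn 1) = gam ^ n * gn 1 * (gam ^ n)⁻¹ :=
  surfaceLift_of _ _ 1

theorem twistHom_two' (n : ℤ) : twistHom n (gn 2) = gn 2 :=
  surfaceLift_of _ _ 2

theorem twistHom_three' (n : ℤ) : twistHom n (gn 3) = gn 3 :=
  surfaceLift_of _ _ 3

theorem twistHom_gam (n : ℤ) : twistHom n gam = gam := by
  conv_lhs => rw [gam]
  rw [map_com, twistHom_zero', twistHom_one', com_conj]
  change gam ^ n * gam * (gam ^ n)⁻¹ = gam
  group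

theorem twistHom_comp (m n : ℤ) : (twistHom m).comp (twistHom n) = twistHom (m + n) := by
  apply surface_hom_ext
  intro i
  fin_cases i
  · change twistHom m (twistHom n (gn 0)) = twistHom (m + n) (gn 0)
    rw [twistHom_zero', map_mul, map_mul, map_inv, map_zpow, twistHom_gam, twistHom_zero',
      twistHom_zero', add_comm, zpow_add]
    group
  · change twistHom m (twistHom n (gn 1)) = twistHom (m + n) (gn 1)
    rw [twistHom_one', map_mul, map_mul, map_inv, map_zpow, twistHom_gam, twistHom_one',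
      twistHom_one', add_comm, zpow_add]
    group
  · change twistHom m (twistHom n (gn 2)) = twistHom (m + n) (gn 2)
    rw [twistHom_two', twistHom_two', twistHom_two']
  · change twistHom m (twistHom n (gn 3)) = twistHom (m + n) (gn 3)
    rw [twistHom_three', twistHom_three', twistHom_three']

theorem twistHom_id : twistHom 0 = MonoidHom.id _ := by
  apply surface_hom_ext
  intro i
  fin_cases i
  · change twistHom 0 (gn 0) = gn 0
    rw [twistHom_zero']; simp
  · change twistHom 0 (gn 1) = gn 1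
    rw [twistHom_one']; simp
  · change twistHom 0 (gn 2) = gn 2
    rw [twistHom_two']
  · change twistHom 0 (gn 3) = gn 3
    rw [twistHom_three']

/-- Powers of the Dehn twist about `γ₀`. -/
def twist (n : ℤ) : MulAut SurfaceGroup :=
  MonoidHom.toMulEquiv (twistHom n) (twistHom (-n))
    (by rw [twistHom_comp, neg_add_cancel, twistHom_id])
    (by rw [twistHom_comp, add_neg_cancel, twistHom_id])

theorem twist_apply (n : ℤ) (x : SurfaceGroup) : twist n x = twistHom n x := rfl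

theorem twist_mul (m n : ℤ) : twist m * twist n = twist (m + n) := by
  ext x
  rw [MulAut.mul_apply, twist_apply, twist_apply, twist_apply, ← twistHom_comp]
  rfl

theorem twist_zero : twist 0 = 1 := by
  ext x
  rw [twist_apply, twistHom_id]
  rfl

/-- The Dehn twist about `γ₀`. -/
def TT : MulAut SurfaceGroup := twist 1

theorem TT_pow (n : ℕ) : TT ^ n = twist n := by
  induction n with
  | zero => rw [pow_zero, Nat.cast_zero, twist_zero]
  | succ n ih => rw [pow_succ, ih, TT, twist_mul]; push_cast; rfl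

/-! ### The second family of twists -/

/-- The element `b₁⁻¹ a₂ b₂ a₂⁻¹`. -/
def cc : SurfaceGroup := (gn 1)⁻¹ * gn 2 * gn 3 * (gn 2)⁻¹

/-- Powers of the twist along `c`, as endomorphisms. -/
def phHom (k : ℤ) : SurfaceGroup →* SurfaceGroup :=
  surfaceLift ![cc ^ k * gn 0, gn 1, gn 2 * (cc ^ k)⁻¹, cc ^ k * gn 3 * (cc ^ k)⁻¹] (by
    change com (cc ^ k * gn 0) (gn 1) *
      com (gn 2 * (cc ^ k)⁻¹) (cc ^ k * gn 3 * (cc ^ k)⁻¹) = 1
    have h1 : com (cc ^ k * gn 0) (gn 1) *
        com (gn 2 * (cc ^ k)⁻¹) (cc ^ k * gn 3 * (cc ^ k)⁻¹) =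
        cc ^ k * gn 0 * gn 1 * (gn 0)⁻¹ * (cc ^ k)⁻¹ *
          ((gn 1)⁻¹ * gn 2 * gn 3 * (gn 2)⁻¹) * cc ^ k * (gn 3)⁻¹ * (cc ^ k)⁻¹ := by
      simp only [com]
      group
    rw [h1]
    change cc ^ k * gn 0 * gn 1 * (gn 0)⁻¹ * (cc ^ k)⁻¹ *
          cc * cc ^ k * (gn 3)⁻¹ * (cc ^ k)⁻¹ = 1
    have h2 : cc ^ k * gn 0 * gn 1 * (gn 0)⁻¹ * (cc ^ k)⁻¹ *
          cc * cc ^ k * (gn 3)⁻¹ * (cc ^ k)⁻¹ =
        cc ^ k * (gn 0 * gn 1 * (gn 0)⁻¹ * cc * (gn 3)⁻¹) * (cc ^ k)⁻¹ := by
      group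
    have h3 : gn 0 * gn 1 * (gn 0)⁻¹ * cc * (gn 3)⁻¹ = 1 := by
      rw [← surface_rel]
      simp only [com, cc]
      group
    rw [h2, h3]
    group)

theorem phHom_zero' (k : ℤ) : phHom k (gn 0) = cc ^ k * gn 0 := surfaceLift_of _ _ 0

theorem phHom_one' (k : ℤ) : phHom k (gn 1) = gn 1 := surfaceLift_of _ _ 1

theorem phHom_two' (k : ℤ) : phHom k (gn 2) = gn 2 * (cc ^ k)⁻¹ := surfaceLift_of _ _ 2

theorem phHom_three' (k : ℤ) : phHom k (gn 3) = cc ^ k * gn 3 * (cc ^ k)⁻¹ :=
  surfaceLift_of _ _ 3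

theorem phHom_cc (k : ℤ) : phHom k cc = cc := by
  conv_lhs => rw [cc]
  rw [map_mul, map_mul, map_mul, map_inv, map_inv, phHom_one', phHom_two', phHom_three']
  conv_rhs => rw [cc]
  group

theorem phHom_comp (m n : ℤ) : (phHom m).comp (phHom n) = phHom (m + n) := by
  apply surface_hom_ext
  intro i
  fin_cases i
  · change phHom m (phHom n (gn 0)) = phHom (m + n) (gn 0)
    rw [phHom_zero', map_mul, map_zpow, phHom_cc, phHom_zero',
      phHom_zero', add_comm, zpow_add, mul_assoc]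
  · change phHom m (phHom n (gn 1)) = phHom (m + n) (gn 1)
    rw [phHom_one', phHom_one', phHom_one']
  · change phHom m (phHom n (gn 2)) = phHom (m + n) (gn 2)
    rw [phHom_two', map_mul, map_inv, map_zpow, phHom_cc, phHom_two', phHom_two', add_comm,
      zpow_add, mul_inv_rev, mul_assoc]
  · change phHom m (phHom n (gn 3)) = phHom (m + n) (gn 3)
    rw [phHom_three', map_mul, map_mul, map_inv, map_zpow, phHom_cc, phHom_three',
      phHom_three', add_comm, zpow_add]
    group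

theorem phHom_id : phHom 0 = MonoidHom.id _ := by
  apply surface_hom_ext
  intro i
  fin_cases i
  · change phHom 0 (gn 0) = gn 0
    rw [phHom_zero']; simp
  · change phHom 0 (gn 1) = gn 1
    rw [phHom_one']
  · change phHom 0 (gn 2) = gn 2
    rw [phHom_two']; simp
  · change phHom 0 (gn 3) = gn 3
    rw [phHom_three']; simp

/-- Powers of the twist along `c`. -/
def PH (k : ℤ) : MulAut SurfaceGroup :=
  MonoidHom.toMulEquiv (phHom k) (phHom (-k))
    (by rw [phHom_comp, neg_add_cancel, phHom_id])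
    (by rw [phHom_comp, add_neg_cancel, phHom_id])

theorem PH_apply (k : ℤ) (x : SurfaceGroup) : PH k x = phHom k x := rfl

/-! ### The rotation -/

/-- Endomorphism `a_i ↦ a_i b_i a_i⁻¹`, `b_i ↦ a_i⁻¹`. -/
def rrHom : SurfaceGroup →* SurfaceGroup :=
  surfaceLift ![gn 0 * gn 1 * (gn 0)⁻¹, (gn 0)⁻¹, gn 2 * gn 3 * (gn 2)⁻¹, (gn 2)⁻¹] (by
    change com (gn 0 * gn 1 * (gn 0)⁻¹) ((gn 0)⁻¹) *
      com (gn 2 * gn 3 * (gn 2)⁻¹) ((gn 2)⁻¹) = 1
    rw [← surface_rel]
    simp only [com]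
    group)

theorem rrHom_zero' : rrHom (gn 0) = gn 0 * gn 1 * (gn 0)⁻¹ := surfaceLift_of _ _ 0

theorem rrHom_one' : rrHom (gn 1) = (gn 0)⁻¹ := surfaceLift_of _ _ 1

theorem rrHom_two' : rrHom (gn 2) = gn 2 * gn 3 * (gn 2)⁻¹ := surfaceLift_of _ _ 2

theorem rrHom_three' : rrHom (gn 3) = (gn 2)⁻¹ := surfaceLift_of _ _ 3

/-- Endomorphism `a_i ↦ b_i⁻¹`, `b_i ↦ b_i a_i b_i⁻¹`. -/
def rrInv : SurfaceGroup →* SurfaceGroup :=
  surfaceLift ![(gn 1)⁻¹, gn 1 * gn 0 * (gn 1)⁻¹, (gn 3)⁻¹, gn 3 * gn 2 * (gn 3)⁻¹] (by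
    change com ((gn 1)⁻¹) (gn 1 * gn 0 * (gn 1)⁻¹) *
      com ((gn 3)⁻¹) (gn 3 * gn 2 * (gn 3)⁻¹) = 1
    rw [← surface_rel]
    simp only [com]
    group)

theorem rrInv_zero' : rrInv (gn 0) = (gn 1)⁻¹ := surfaceLift_of _ _ 0

theorem rrInv_one' : rrInv (gn 1) = gn 1 * gn 0 * (gn 1)⁻¹ := surfaceLift_of _ _ 1

theorem rrInv_two' : rrInv (gn 2) = (gn 3)⁻¹ := surfaceLift_of _ _ 2

theorem rrInv_three' : rrInv (gn 3) = gn 3 * gn 2 * (gn 3)⁻¹ := surfaceLift_of _ _ 3

/-- The rotation by a quarter on both handles. -/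
def RR : MulAut SurfaceGroup :=
  MonoidHom.toMulEquiv rrHom rrInv
    (by
      apply surface_hom_ext
      intro i
      fin_cases i
      · change rrInv (rrHom (gn 0)) = gn 0
        rw [rrHom_zero', map_mul, map_mul, map_inv, rrInv_zero', rrInv_one']; group
      · change rrInv (rrHom (gn 1)) = gn 1
        rw [rrHom_one', map_inv, rrInv_zero']; group
      · change rrInv (rrHom (gn 2)) = gn 2
        rw [rrHom_two', map_mul, map_mul, map_inv, rrInv_two', rrInv_three']; group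
      · change rrInv (rrHom (gn 3)) = gn 3
        rw [rrHom_three', map_inv, rrInv_two']; group)
    (by
      apply surface_hom_ext
      intro i
      fin_cases i
      · change rrHom (rrInv (gn 0)) = gn 0
        rw [rrInv_zero', map_inv, rrHom_one']; group
      · change rrHom (rrInv (gn 1)) = gn 1
        rw [rrInv_one', map_mul, map_mul, map_inv, rrHom_zero', rrHom_one']; group
      · change rrHom (rrInv (gn 2)) = gn 2
        rw [rrInv_two', map_inv, rrHom_three']; group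
      · change rrHom (rrInv (gn 3)) = gn 3
        rw [rrInv_three', map_mul, map_mul, map_inv, rrHom_two', rrHom_three']; group)

theorem RR_apply (x : SurfaceGroup) : RR x = rrHom x := rfl

/-- The family `s_k`. -/
def SK (k : ℤ) : MulAut SurfaceGroup := PH k * RR * PH 1

end MPb95792
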