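import Pool.Agent.Helper48.HHG.B1

/-!
Module B1b: homology of the explicit automorphisms.
-/

universe u v

namespace MPb95792

theorem ab_mul (x y : SurfaceGroup) (i : Fin 4) : ab (x * y) i = ab x i + ab y i := by
  simp [ab]

theorem ab_one (i : Fin 4) : ab 1 i = 0 := by
  simp [ab]

theorem ab_inv (x : SurfaceGroup) (i : Fin 4) : ab x⁻¹ i = - ab x i := by
  simp [ab]

theorem ab_zpow (x : SurfaceGroup) (n : ℤ) (i : Fin 4) : ab (x ^ n) i = n * ab x i := by
  simp [ab]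

theorem ab_gn (i j : Fin 4) : ab (gn j) i = if j = i then 1 else 0 := by
  have h : expo i (gn j) = if j = i then Multiplicative.ofAdd 1 else 1 := surfaceLift_of _ _ j
  rw [ab, h]
  split_ifs <;> rfl

theorem ab_conj (g x : SurfaceGroup) (i : Fin 4) : ab (g * x * g⁻¹) i = ab x i := by
  rw [ab_mul, ab_mul, ab_inv]; ring

theorem ab_com (x y : SurfaceGroup) (i : Fin 4) : ab (com x y) i = 0 := by
  rw [com, ab_mul, ab_mul, ab_mul, ab_inv, ab_inv]; ring

theorem ab_gam (i : Fin 4) : ab gam i = 0 := ab_com _ _ _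

/-- The action on homology. -/
theorem ab_map (φ : SurfaceGroup →* SurfaceGroup) (x : SurfaceGroup) (i : Fin 4) :
    ab (φ x) i = ab x 0 * ab (φ (gn 0)) i + ab x 1 * ab (φ (gn 1)) i +
      ab x 2 * ab (φ (gn 2)) i + ab x 3 * ab (φ (gn 3)) i := by
  let g : SurfaceGroup →* Multiplicative ℤ :=
    { toFun := fun x => Multiplicative.ofAdd (ab x 0 * ab (φ (gn 0)) i +
        ab x 1 * ab (φ (gn 1)) i + ab x 2 * ab (φ (gn 2)) i + ab x 3 * ab (φ (gn 3)) i)
      map_one' := by simp [ab_one]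
      map_mul' := by
        intro x y
        rw [← ofAdd_add]
        congr 1
        simp only [ab_mul]
        ring }
  have h : (expo i).comp φ = g := by
    apply surface_hom_ext
    intro j
    change expo i (φ (gn j)) = Multiplicative.ofAdd (ab (gn j) 0 * ab (φ (gn 0)) i +
        ab (gn j) 1 * ab (φ (gn 1)) i + ab (gn j) 2 * ab (φ (gn 2)) i +
        ab (gn j) 3 * ab (φ (gn 3)) i)
    rw [← ofAdd_toAdd (expo i (φ (gn j)))]
    change Multiplicative.ofAdd (ab (φ (gn j)) i) = _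
    congr 1
    simp only [ab_gn]
    fin_cases j <;> simp
  have h2 := congrArg (fun f : SurfaceGroup →* Multiplicative ℤ => Multiplicative.toAdd (f x)) h
  exact h2

theorem ab_mapAut (φ : MulAut SurfaceGroup) (x : SurfaceGroup) (i : Fin 4) :
    ab (φ x) i = ab x 0 * ab (φ (gn 0)) i + ab x 1 * ab (φ (gn 1)) i +
      ab x 2 * ab (φ (gn 2)) i + ab x 3 * ab (φ (gn 3)) i :=
  ab_map φ.toMonoidHom x i

/-- Criterion for being orientation preserving. -/
theorem mem_MCG_of (φ : MulAut SurfaceGroup)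
    (h : ∀ i j, inter (φ (gn i)) (φ (gn j)) = inter (gn i) (gn j)) : φ ∈ MCG21 := by
  intro x y
  have h01 := h 0 1
  have h02 := h 0 2
  have h03 := h 0 3
  have h12 := h 1 2
  have h13 := h 1 3
  have h23 := h 2 3
  simp only [inter, ab_gn] at h01 h02 h03 h12 h13 h23
  simp at h01 h02 h03 h12 h13 h23
  simp only [inter]
  rw [ab_mapAut φ x 0, ab_mapAut φ x 1, ab_mapAut φ x 2, ab_mapAut φ x 3,
    ab_mapAut φ y 0, ab_mapAut φ y 1, ab_mapAut φ y 2, ab_mapAut φ y 3]
  linear_combination (ab x 0 * ab y 1 - ab x 1 * ab y 0) * h01 +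
    (ab x 0 * ab y 2 - ab x 2 * ab y 0) * h02 + (ab x 0 * ab y 3 - ab x 3 * ab y 0) * h03 +
    (ab x 1 * ab y 2 - ab x 2 * ab y 1) * h12 + (ab x 1 * ab y 3 - ab x 3 * ab y 1) * h13 +
    (ab x 2 * ab y 3 - ab x 3 * ab y 2) * h23

theorem conj_mem (g : SurfaceGroup) : MulAut.conj g ∈ MCG21 := by
  intro x y
  simp only [inter, MulAut.conj_apply, ab_conj]

theorem twist_mem (n : ℤ) : twist n ∈ MCG21 := by
  apply mem_MCG_of
  intro i j
  have h : ∀ i k, ab (twist n (gn i)) k = ab (gn i) k := by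
    intro i k
    rw [twist_apply]
    fin_cases i
    · change ab (twistHom n (gn 0)) k = ab (gn 0) k
      rw [twistHom_zero', ab_conj]
    · change ab (twistHom n (gn 1)) k = ab (gn 1) k
      rw [twistHom_one', ab_conj]
    · change ab (twistHom n (gn 2)) k = ab (gn 2) k
      rw [twistHom_two']
    · change ab (twistHom n (gn 3)) k = ab (gn 3) k
      rw [twistHom_three']
  simp only [inter, h]

theorem ab_cc (i : Fin 4) : ab cc i = ab (gn 3) i - ab (gn 1) i := by
  rw [cc, ab_mul, ab_mul, ab_mul, ab_inv, ab_inv]; ring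

theorem ab_PH_zero (k : ℤ) (i : Fin 4) :
    ab (PH k (gn 0)) i = ab (gn 0) i + k * (ab (gn 3) i - ab (gn 1) i) := by
  rw [PH_apply, phHom_zero', ab_mul, ab_zpow, ab_cc]; ring

theorem ab_PH_one (k : ℤ) (i : Fin 4) : ab (PH k (gn 1)) i = ab (gn 1) i := by
  rw [PH_apply, phHom_one']

theorem ab_PH_two (k : ℤ) (i : Fin 4) :
    ab (PH k (gn 2)) i = ab (gn 2) i - k * (ab (gn 3) i - ab (gn 1) i) := by
  rw [PH_apply, phHom_two', ab_mul, ab_inv, ab_zpow, ab_cc]; ring

theorem ab_PH_three (k : ℤ) (i : Fin 4) : ab (PH k (gn 3)) i = ab (gn 3) i := by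
  rw [PH_apply, phHom_three', ab_conj]

theorem ab_RR_zero (i : Fin 4) : ab (RR (gn 0)) i = ab (gn 1) i := by
  rw [RR_apply, rrHom_zero', ab_conj]

theorem ab_RR_one (i : Fin 4) : ab (RR (gn 1)) i = - ab (gn 0) i := by
  rw [RR_apply, rrHom_one', ab_inv]

theorem ab_RR_two (i : Fin 4) : ab (RR (gn 2)) i = ab (gn 3) i := by
  rw [RR_apply, rrHom_two', ab_conj]

theorem ab_RR_three (i : Fin 4) : ab (RR (gn 3)) i = - ab (gn 2) i := by
  rw [RR_apply, rrHom_three', ab_inv]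

theorem PH_mem (k : ℤ) : PH k ∈ MCG21 := by
  apply mem_MCG_of
  intro i j
  fin_cases i <;> fin_cases j <;>
    simp [inter, ab_PH_zero, ab_PH_one, ab_PH_two, ab_PH_three, ab_gn]

theorem RR_mem : RR ∈ MCG21 := by
  apply mem_MCG_of
  intro i j
  fin_cases i <;> fin_cases j <;>
    simp [inter, ab_RR_zero, ab_RR_one, ab_RR_two, ab_RR_three, ab_gn]

theorem SK_mem (k : ℤ) : SK k ∈ MCG21 :=
  MCG21.mul_mem (MCG21.mul_mem (PH_mem k) RR_mem) (PH_mem 1)

/-- The intersection number of the first handle parts of the images of `a₁` and `b₁`. -/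
def FF (φ : MulAut SurfaceGroup) : ℤ :=
  ab (φ (gn 0)) 0 * ab (φ (gn 1)) 1 - ab (φ (gn 0)) 1 * ab (φ (gn 1)) 0

theorem FF_SK (k : ℤ) : FF (SK k) = 1 - k := by
  have h : ∀ x i, ab (SK k x) i = _ := fun x i => by
    rw [SK, MulAut.mul_apply, MulAut.mul_apply, ab_mapAut (PH k), ab_mapAut RR (PH 1 x) 0,
      ab_mapAut RR (PH 1 x) 1, ab_mapAut RR (PH 1 x) 2, ab_mapAut RR (PH 1 x) 3]
  simp only [FF, h, ab_PH_zero, ab_PH_one, ab_PH_two, ab_PH_three, ab_RR_zero, ab_RR_one,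
    ab_RR_two, ab_RR_three, ab_gn]
  simp
  ring

end MPb95792
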