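import Pool.Agent.Helper48.HHG.B1b

/-!
Module B2: affine groups over Laurent polynomial rings and representations of the surface group.
-/

universe u v

namespace MPb95792

/-- The affine group `x ↦ u x + v` of a commutative ring. -/
@[ext]
structure Aff (R : Type u) [CommRing R] where
  u : Rˣ
  v : R

namespace Aff

variable {R : Type u} [CommRing R]

instance : Mul (Aff R) := ⟨fun x y => ⟨x.u * y.u, x.v + (x.u : R) * y.v⟩⟩

instance : One (Aff R) := ⟨⟨1, 0⟩⟩

instance : Inv (Aff R) := ⟨fun x => ⟨x.u⁻¹, -(((x.u⁻¹ : Rˣ) : R) * x.v)⟩⟩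

@[simp] theorem mul_u (x y : Aff R) : (x * y).u = x.u * y.u := rfl
@[simp] theorem mul_v (x y : Aff R) : (x * y).v = x.v + (x.u : R) * y.v := rfl
@[simp] theorem one_u : (1 : Aff R).u = 1 := rfl
@[simp] theorem one_v : (1 : Aff R).v = 0 := rfl
@[simp] theorem inv_u (x : Aff R) : (x⁻¹).u = x.u⁻¹ := rfl
@[simp] theorem inv_v (x : Aff R) : (x⁻¹).v = -(((x.u⁻¹ : Rˣ) : R) * x.v) := rfl

instance : Group (Aff R) :=
  Group.ofLeftAxioms
    (by intro x y z; ext <;> simp [mul_assoc]; ring)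
    (by intro x; ext <;> simp)
    (by intro x; ext <;> simp)

theorem com_u (x y : Aff R) : (com x y).u = 1 := by
  simp only [com, mul_u, inv_u]
  rw [mul_comm x.u y.u, mul_inv_cancel_right, mul_inv_cancel]

theorem com_v (x y : Aff R) :
    (com x y).v = (1 - (y.u : R)) * x.v + ((x.u : R) - 1) * y.v := by
  simp only [com, mul_u, inv_u, mul_v, inv_v]
  have h1 : (x.u : R) * ((x.u⁻¹ : Rˣ) : R) = 1 := Units.mul_inv _
  have h2 : (y.u : R) * ((y.u⁻¹ : Rˣ) : R) = 1 := Units.mul_inv _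
  have h3 : ((x.u * y.u * x.u⁻¹ : Rˣ) : R) = (y.u : R) := by
    rw [mul_comm x.u y.u, mul_inv_cancel_right]
  rw [h3, Units.val_mul]
  linear_combination (-(y.u : R) * x.v) * h1 - y.v * h2

theorem pow_v (x : Aff R) (hx : x.u = 1) (n : ℕ) : (x ^ n).u = 1 ∧ (x ^ n).v = n * x.v := by
  induction n with
  | zero => exact ⟨by rw [pow_zero, one_u], by rw [pow_zero, one_v, Nat.cast_zero, zero_mul]⟩
  | succ n ih =>
    refine ⟨by rw [pow_succ, mul_u, ih.1, hx, one_mul], ?_⟩
    rw [pow_succ, mul_v, ih.1, ih.2, Units.val_one, one_mul, Nat.cast_succ]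
    ring

end Aff

/-- Laurent polynomials over `ℤ/K`. -/
abbrev Lam (K : ℕ) : Type := LaurentPolynomial (ZMod K)

/-- The unit `t ^ j`. -/
noncomputable def tu (K : ℕ) (j : ℤ) : (Lam K)ˣ :=
  ⟨LaurentPolynomial.T j, LaurentPolynomial.T (-j),
    by rw [← LaurentPolynomial.T_add, add_neg_cancel, LaurentPolynomial.T_zero],
    by rw [← LaurentPolynomial.T_add, neg_add_cancel, LaurentPolynomial.T_zero]⟩

theorem tu_add (K : ℕ) (i j : ℤ) : tu K (i + j) = tu K i * tu K j := by
  ext1
  rw [Units.val_mul]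
  exact LaurentPolynomial.T_add i j

theorem tu_zero (K : ℕ) : tu K 0 = 1 := by
  ext1
  rw [Units.val_one]
  exact LaurentPolynomial.T_zero

/-- `1 - t ^ j` is a nonzerodivisor. -/
theorem one_sub_reg (K : ℕ) {j : ℤ} (hj : j ≠ 0) (z : Lam K)
    (h : z * (1 - (tu K j : Lam K)) = 0) : z = 0 := by
  have h1 : z = z * LaurentPolynomial.T j := by
    have h2 : z * (1 - (tu K j : Lam K)) = z - z * LaurentPolynomial.T j := by
      rw [mul_sub, mul_one]
      rfl
    rw [h2] at h
    exact sub_eq_zero.1 h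
  have hc : ∀ n : ℤ, z.coeff (n + j) = z.coeff n := by
    intro n
    have h3 : (z * LaurentPolynomial.T j).coeff (n + j) = z.coeff n * 1 :=
      AddMonoidAlgebra.coeff_mul_single_eq_coeff_mul n (by
        intro m' _
        exact add_left_inj j)
    rw [← h1, mul_one] at h3
    exact h3
  have hk : ∀ (k : ℕ) (n : ℤ), z.coeff (n + k * j) = z.coeff n := by
    intro k
    induction k with
    | zero => intro n; simp
    | succ k ih =>
      intro n
      have h4 : n + ((k + 1 : ℕ) : ℤ) * j = (n + k * j) + j := by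
        push_cast
        ring
      rw [h4, hc, ih]
  by_contra hz
  have hz' : ∃ n, z.coeff n ≠ 0 := by
    by_contra hcon
    push Not at hcon
    apply hz
    exact LaurentPolynomial.ext (fun a => by rw [hcon a]; rfl)
  obtain ⟨n, hn⟩ := hz'
  have hinj : Function.Injective (fun k : ℕ => n + (k : ℤ) * j) := by
    intro a b hab
    have h5 : (a : ℤ) * j = (b : ℤ) * j := add_left_cancel hab
    exact_mod_cast mul_right_cancel₀ hj h5
  have hsub : Set.range (fun k : ℕ => n + (k : ℤ) * j) ⊆ (z.coeff.support : Set ℤ) := by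
    rintro _ ⟨k, rfl⟩
    rw [Finset.mem_coe, Finsupp.mem_support_iff]
    change z.coeff (n + (k : ℤ) * j) ≠ 0
    rw [hk]
    exact hn
  exact Set.infinite_range_of_injective hinj (z.coeff.support.finite_toSet.subset hsub)

/-- One of the two coefficients coming from a handle is a nonzerodivisor. -/
theorem exists_reg (K : ℕ) (a b : ℤ) (h : ¬ (a = 0 ∧ b = 0)) :
    ∃ α β : Lam K, ∀ z : Lam K,
      z * ((1 - (tu K a : Lam K)) * α + ((tu K b : Lam K) - 1) * β) = 0 → z = 0 := by
  by_cases ha : a = 0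
  · have hb : b ≠ 0 := fun hb => h ⟨ha, hb⟩
    refine ⟨0, -1, fun z hz => one_sub_reg K hb z ?_⟩
    rw [← hz]
    ring
  · refine ⟨1, 0, fun z hz => one_sub_reg K ha z ?_⟩
    rw [← hz]
    ring

/-- Intersection number of the homology class of `x` with the vector `w`. -/
def wdot (x : SurfaceGroup) (w : Fin 4 → ℤ) : ℤ :=
  ab x 0 * w 1 - ab x 1 * w 0 + (ab x 2 * w 3 - ab x 3 * w 2)

/-- The representation attached to a vector `w` which is not in one of the two handles. -/
theorem exists_mu (K : ℕ) (w : Fin 4 → ℤ) (h1 : ¬ (w 0 = 0 ∧ w 1 = 0))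
    (h2 : ¬ (w 2 = 0 ∧ w 3 = 0)) :
    ∃ μ : SurfaceGroup →* Aff (Lam K), (∀ x, (μ x).u = tu K (wdot x w)) ∧
      ∀ z : Lam K, z * (μ gam).v = 0 → z = 0 := by
  obtain ⟨α, β, hP⟩ := exists_reg K (-w 0) (w 1) (by
    rintro ⟨h3, h4⟩
    exact h1 ⟨neg_eq_zero.1 h3, h4⟩)
  obtain ⟨α', β', hQ⟩ := exists_reg K (-w 2) (w 3) (by
    rintro ⟨h3, h4⟩
    exact h2 ⟨neg_eq_zero.1 h3, h4⟩)
  obtain ⟨P, hPd⟩ : ∃ P : Lam K, P = (1 - (tu K (-w 0) : Lam K)) * α +
    ((tu K (w 1) : Lam K) - 1) * β := ⟨_, rfl⟩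
  obtain ⟨Q, hQd⟩ : ∃ Q : Lam K, Q = (1 - (tu K (-w 2) : Lam K)) * α' +
    ((tu K (w 3) : Lam K) - 1) * β' := ⟨_, rfl⟩
  rw [← hPd] at hP
  rw [← hQd] at hQ
  let g : Fin 4 → Aff (Lam K) := ![⟨tu K (w 1), α * Q⟩, ⟨tu K (-w 0), β * Q⟩,
    ⟨tu K (w 3), -(α' * P)⟩, ⟨tu K (-w 2), -(β' * P)⟩]
  have hcom1 : com (g 0) (g 1) = ⟨1, P * Q⟩ := by
    apply Aff.ext
    · exact Aff.com_u _ _
    · rw [Aff.com_v]
      change (1 - (tu K (-w 0) : Lam K)) * (α * Q) + ((tu K (w 1) : Lam K) - 1) * (β * Q) = P * Q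
      rw [hPd]
      ring
  have hcom2 : com (g 2) (g 3) = ⟨1, -(P * Q)⟩ := by
    apply Aff.ext
    · exact Aff.com_u _ _
    · rw [Aff.com_v]
      change (1 - (tu K (-w 2) : Lam K)) * (-(α' * P)) +
        ((tu K (w 3) : Lam K) - 1) * (-(β' * P)) = -(P * Q)
      rw [hQd]
      ring
  have hrel : com (g 0) (g 1) * com (g 2) (g 3) = 1 := by
    rw [hcom1, hcom2]
    apply Aff.ext
    · exact mul_one 1
    · change P * Q + ((1 : (Lam K)ˣ) : Lam K) * (-(P * Q)) = 0
      rw [Units.val_one]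
      ring
  refine ⟨surfaceLift g hrel, ?_, ?_⟩
  · let uH : Aff (Lam K) →* (Lam K)ˣ :=
      { toFun := fun x => x.u
        map_one' := rfl
        map_mul' := fun _ _ => rfl }
    let wH : SurfaceGroup →* (Lam K)ˣ :=
      { toFun := fun x => tu K (wdot x w)
        map_one' := by
          have h3 : wdot 1 w = 0 := by
            simp only [wdot, ab_one]
            ring
          rw [h3, tu_zero]
        map_mul' := by
          intro x y
          have h3 : wdot (x * y) w = wdot x w + wdot y w := by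
            simp only [wdot, ab_mul]
            ring
          rw [h3, tu_add] }
    have hH : uH.comp (surfaceLift g hrel) = wH := by
      apply surface_hom_ext
      intro i
      change (surfaceLift g hrel (gn i)).u = tu K (wdot (gn i) w)
      rw [surfaceLift_of]
      have h4 : ∀ j : Fin 4, wdot (gn j) w = (if j = 0 then 1 else 0) * w 1 -
          (if j = 1 then 1 else 0) * w 0 + ((if j = 2 then 1 else 0) * w 3 -
          (if j = 3 then 1 else 0) * w 2) := by
        intro j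
        simp only [wdot, ab_gn]
      rw [h4]
      fin_cases i <;> simp [g]
    intro x
    exact congrArg (fun f : SurfaceGroup →* (Lam K)ˣ => f x) hH
  · intro z hz
    have h5 : surfaceLift g hrel gam = ⟨1, P * Q⟩ := by
      rw [gam, map_com, surfaceLift_of, surfaceLift_of, hcom1]
    rw [h5] at hz
    change z * (P * Q) = 0 at hz
    apply hP
    apply hQ
    rw [mul_assoc]
    exact hz

end MPb95792
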