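import Pool.Agent.Helper48.HHG.B2

/-!
Module B3: the two key lemmas on the vectors orthogonal to the image of the first handle.
-/

universe u v

namespace MPb95792

/-- Every vector orthogonal to the image of the first handle lies in one of the handles. -/
def PropP (h : MulAut SurfaceGroup) : Prop :=
  ∀ w : Fin 4 → ℤ, wdot (h (gn 0)) w = 0 → wdot (h (gn 1)) w = 0 →
    (w 0 = 0 ∧ w 1 = 0) ∨ (w 2 = 0 ∧ w 3 = 0)

theorem natCast_Lam_eq_zero (K m : ℕ) (h : (m : Lam K) = 0) : (m : ZMod K) = 0 := by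
  have h1 : (Polynomial.toLaurent (Polynomial.C (m : ZMod K)) : Lam K) =
      Polynomial.toLaurent (Polynomial.C 0) := by
    rw [map_natCast, map_natCast, map_zero, map_zero]; exact h
  exact Polynomial.C_injective (Polynomial.toLaurent_injective h1)

theorem wdot_gn_zero (w : Fin 4 → ℤ) : wdot (gn 0) w = w 1 := by
  simp [wdot, ab_gn]

theorem wdot_gn_one (w : Fin 4 → ℤ) : wdot (gn 1) w = - w 0 := by
  simp [wdot, ab_gn]

theorem wdot_gn_two (w : Fin 4 → ℤ) : wdot (gn 2) w = w 3 := by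
  simp [wdot, ab_gn]

theorem wdot_gn_three (w : Fin 4 → ℤ) : wdot (gn 3) w = - w 2 := by
  simp [wdot, ab_gn]

theorem exists_first (w : Fin 4 → ℤ) (h1 : ¬ (w 0 = 0 ∧ w 1 = 0)) :
    ∃ x : SurfaceGroup, (x = gn 0 ∨ x = gn 1) ∧ wdot x w ≠ 0 := by
  by_cases h : w 1 = 0
  · refine ⟨gn 1, Or.inr rfl, ?_⟩
    rw [wdot_gn_one]
    intro h0
    exact h1 ⟨by omega, h⟩
  · refine ⟨gn 0, Or.inl rfl, ?_⟩
    rw [wdot_gn_zero]
    exact h

theorem exists_second (w : Fin 4 → ℤ) (h1 : ¬ (w 2 = 0 ∧ w 3 = 0)) :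
    ∃ x : SurfaceGroup, (x = gn 2 ∨ x = gn 3) ∧ wdot x w ≠ 0 := by
  by_cases h : w 3 = 0
  · refine ⟨gn 3, Or.inr rfl, ?_⟩
    rw [wdot_gn_three]
    intro h0
    exact h1 ⟨by omega, h⟩
  · refine ⟨gn 2, Or.inl rfl, ?_⟩
    rw [wdot_gn_two]
    exact h

theorem Aff.com_eq_one {R : Type u} [CommRing R] (x y : Aff R) (hx : x.u = 1) (hy : y.u = 1) :
    com x y = 1 := by
  ext
  · rw [Aff.com_u, Aff.one_u]
  · rw [Aff.com_v, hx, hy, Aff.one_v]; simp

/-- The image of `γ₀` under an automorphism is killed. -/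
theorem mu_map_gam {K : ℕ} {w : Fin 4 → ℤ} (μ : SurfaceGroup →* Aff (Lam K))
    (hμ : ∀ x, (μ x).u = tu K (wdot x w)) (h : MulAut SurfaceGroup)
    (h0 : wdot (h (gn 0)) w = 0) (h1 : wdot (h (gn 1)) w = 0) : μ (h gam) = 1 := by
  have e : h gam = com (h (gn 0)) (h (gn 1)) := map_com h.toMonoidHom (gn 0) (gn 1)
  rw [e, map_com]
  apply Aff.com_eq_one
  · rw [hμ, h0, tu_zero]
  · rw [hμ, h1, tu_zero]

theorem mu_gam_u {K : ℕ} (μ : SurfaceGroup →* Aff (Lam K)) : (μ gam).u = 1 := by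
  rw [gam, map_com, Aff.com_u]

theorem propP_of_com (K m : ℕ) (hm : (m : ZMod K) ≠ 0) (h : MulAut SurfaceGroup)
    (hc : ∀ (f : SurfaceGroup →* Aff (Lam K)) (x : SurfaceGroup),
      f (com (h gam ^ m * (gam ^ m)⁻¹) x) = 1) : PropP h := by
  intro w hw0 hw1
  by_contra hcon
  rw [not_or] at hcon
  obtain ⟨hn1, hn2⟩ := hcon
  obtain ⟨μ, hμ, hreg⟩ := exists_mu K w hn1 hn2
  obtain ⟨x, -, hx⟩ := exists_first w hn1
  have hg : μ (h gam) = 1 := mu_map_gam μ hμ h hw0 hw1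
  obtain ⟨hpu, hpv⟩ := Aff.pow_v (μ gam) (mu_gam_u μ) m
  have e := hc μ x
  rw [map_com, map_mul, map_inv, map_pow, map_pow, hg, one_pow, one_mul] at e
  have e2 := congrArg Aff.v e
  rw [Aff.com_v, Aff.inv_u, Aff.inv_v, hpu, hpv, hμ, Aff.one_v] at e2
  have e3 : ((m : Lam K) * (1 - (tu K (wdot x w) : Lam K))) * (μ gam).v = 0 := by
    have e4 : ((m : Lam K) * (1 - (tu K (wdot x w) : Lam K))) * (μ gam).v =
      - ((1 - (tu K (wdot x w) : Lam K)) *
          -((((1 : (Lam K)ˣ)⁻¹ : (Lam K)ˣ) : Lam K) * ((m : Lam K) * (μ gam).v)) +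
        ((((1 : (Lam K)ˣ)⁻¹ : (Lam K)ˣ) : Lam K) - 1) * (μ x).v) := by
      rw [inv_one, Units.val_one]; ring
    rw [e4, e2, neg_zero]
  have e5 := hreg _ e3
  have e6 := one_sub_reg K hx _ e5
  exact hm (natCast_Lam_eq_zero K m e6)

theorem mu_twist {K : ℕ} {w : Fin 4 → ℤ} (μ : SurfaceGroup →* Aff (Lam K))
    (hμ : ∀ x, (μ x).u = tu K (wdot x w)) (n : ℕ) (x : SurfaceGroup)
    (hx : x = gn 0 ∨ x = gn 1) :
    (μ (twist n x)).u = (μ x).u ∧
    (μ (twist n x)).v = (μ x).v +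
      (n : Lam K) * ((1 - (tu K (wdot x w) : Lam K)) * (μ gam).v) := by
  have e : twist n x = gam ^ n * x * (gam ^ n)⁻¹ := by
    rw [twist_apply]
    rcases hx with rfl | rfl
    · rw [twistHom_zero', zpow_natCast]
    · rw [twistHom_one', zpow_natCast]
  obtain ⟨hpu, hpv⟩ := Aff.pow_v (μ gam) (mu_gam_u μ) n
  rw [e, map_mul, map_mul, map_inv, map_pow]
  constructor
  · rw [Aff.mul_u, Aff.mul_u, Aff.inv_u, hpu, one_mul, inv_one, mul_one]
  · rw [Aff.mul_v, Aff.mul_v, Aff.mul_u, Aff.inv_v, hpu, hpv, hμ, one_mul, inv_one,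
      Units.val_one]
    ring

theorem propP_of_twist (K n : ℕ) (hn : (n : ZMod K) ≠ 0) (σ : MulAut SurfaceGroup)
    (g : SurfaceGroup)
    (hc : ∀ (f : SurfaceGroup →* Aff (Lam K)) (y : SurfaceGroup),
      f (σ (twist n (σ⁻¹ y))) = f (g * twist n y * g⁻¹)) : PropP σ := by
  intro w hw0 hw1
  by_contra hcon
  rw [not_or] at hcon
  obtain ⟨hn1, hn2⟩ := hcon
  obtain ⟨μ, hμ, hreg⟩ := exists_mu K w hn1 hn2
  obtain ⟨x, hx, hxw⟩ := exists_first w hn1
  obtain ⟨x', hx', hxw'⟩ := exists_second w hn2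
  have hg : μ (σ gam) = 1 := mu_map_gam μ hμ σ hw0 hw1
  have hgn : μ (σ (gam ^ n)) = 1 := by
    rw [map_pow, map_pow, hg, one_pow]
  -- the two homomorphisms agree
  have hhom : (μ.comp (σ.toMonoidHom.comp (twistHom n))) = μ.comp σ.toMonoidHom := by
    apply surface_hom_ext
    intro i
    change μ (σ (twistHom n (gn i))) = μ (σ (gn i))
    fin_cases i
    · change μ (σ (twistHom n (gn 0))) = μ (σ (gn 0))
      rw [twistHom_zero', zpow_natCast, map_mul, map_mul, map_inv, map_mul, map_mul,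
        map_inv, hgn, one_mul, inv_one, mul_one]
    · change μ (σ (twistHom n (gn 1))) = μ (σ (gn 1))
      rw [twistHom_one', zpow_natCast, map_mul, map_mul, map_inv, map_mul, map_mul,
        map_inv, hgn, one_mul, inv_one, mul_one]
    · change μ (σ (twistHom n (gn 2))) = μ (σ (gn 2))
      rw [twistHom_two']
    · change μ (σ (twistHom n (gn 3))) = μ (σ (gn 3))
      rw [twistHom_three']
  have key : ∀ y, μ y = μ g * μ (twist n y) * (μ g)⁻¹ := by
    intro y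
    have h1 : μ (σ (twist n (σ⁻¹ y))) = μ y := by
      have h2 := DFunLike.congr_fun hhom (σ⁻¹ y)
      change μ (σ (twistHom n (σ⁻¹ y))) = μ (σ (σ⁻¹ y)) at h2
      rw [MulAut.apply_inv_self] at h2
      exact h2
    rw [← h1, hc μ y, map_mul, map_mul, map_inv]
  -- `y = γ₀`
  have hgu : ((μ g).u : Lam K) = 1 := by
    have h1 := congrArg Aff.v (key gam)
    rw [twist_apply, twistHom_gam, Aff.mul_v, Aff.mul_v, Aff.mul_u, Aff.inv_v, mu_gam_u,
      mul_one] at h1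
    have h2 : ((μ g).u : Lam K) * -((((μ g).u⁻¹ : (Lam K)ˣ) : Lam K) * (μ g).v) =
        - (μ g).v := by
      rw [mul_neg, Units.mul_inv_cancel_left]
    rw [h2] at h1
    have h3 : (((μ g).u : Lam K) - 1) * (μ gam).v = 0 := by
      linear_combination (-1 : Lam K) * h1
    exact sub_eq_zero.mp (hreg _ h3)
  have hgu' : (μ g).u = 1 := Units.ext hgu
  -- `y = [x, x']`
  have htx' : twist n x' = x' := by
    rw [twist_apply]
    rcases hx' with rfl | rfl
    · rw [twistHom_two']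
    · rw [twistHom_three']
  have htc : twist n (com x x') = com (twist n x) x' := by
    have h1 : twist n (com x x') = com (twist n x) (twist n x') :=
      map_com (twist n).toMonoidHom x x'
    rw [h1, htx']
  obtain ⟨hm1, hm2⟩ := mu_twist μ hμ n x hx
  have h1 := congrArg Aff.v (key (com x x'))
  rw [htc, map_com, map_com, Aff.mul_v, Aff.mul_v, Aff.mul_u, Aff.inv_v, Aff.com_u, hgu',
    mul_one, inv_one, Units.val_one, one_mul, one_mul, one_mul, Aff.com_v, Aff.com_v, hm1, hm2,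
    hμ x'] at h1
  have h3 : (((n : Lam K) * (1 - (tu K (wdot x w) : Lam K))) *
      (1 - (tu K (wdot x' w) : Lam K))) * (μ gam).v = 0 := by
    linear_combination (-1 : Lam K) * h1
  have h4 := hreg _ h3
  have h5 := one_sub_reg K hxw' _ h4
  have h6 := one_sub_reg K hxw _ h5
  exact hn (natCast_Lam_eq_zero K n h6)

end MPb95792
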