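import Pool.Agent.Helper48.HHG.B3

/-!
Module B4: the invariant `FF` under left and right multiplication by automorphisms which
preserve or exchange the two handles in homology.
-/

universe u v

namespace MPb95792

/-- A symplectic integer matrix has symplectic transpose (one entry of this statement). -/
theorem sympl_transpose (a b c d : Fin 4 → ℤ)
    (h01 : a 0 * b 1 - a 1 * b 0 + (a 2 * b 3 - a 3 * b 2) = 1)
    (h02 : a 0 * c 1 - a 1 * c 0 + (a 2 * c 3 - a 3 * c 2) = 0)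
    (h03 : a 0 * d 1 - a 1 * d 0 + (a 2 * d 3 - a 3 * d 2) = 0)
    (h12 : b 0 * c 1 - b 1 * c 0 + (b 2 * c 3 - b 3 * c 2) = 0)
    (h13 : b 0 * d 1 - b 1 * d 0 + (b 2 * d 3 - b 3 * d 2) = 0)
    (h23 : c 0 * d 1 - c 1 * d 0 + (c 2 * d 3 - c 3 * d 2) = 1) :
    a 0 * b 1 - a 1 * b 0 + (c 0 * d 1 - c 1 * d 0) = 1 := by
  let M : Matrix (Fin 4) (Fin 4) ℤ :=
    !![a 0, b 0, c 0, d 0; a 1, b 1, c 1, d 1; a 2, b 2, c 2, d 2; a 3, b 3, c 3, d 3]
  let N : Matrix (Fin 4) (Fin 4) ℤ :=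
    !![b 1, - b 0, b 3, - b 2; - a 1, a 0, - a 3, a 2; d 1, - d 0, d 3, - d 2;
      - c 1, c 0, - c 3, c 2]
  have hNM : N * M = 1 := by
    ext i j
    fin_cases i <;> fin_cases j <;>
      simp [N, M, Matrix.mul_apply, Fin.sum_univ_four] <;> linarith
  have hMN : M * N = 1 := mul_eq_one_comm.mp hNM
  have h00 := congrArg (fun X : Matrix (Fin 4) (Fin 4) ℤ => X 0 0) hMN
  simp [N, M, Matrix.mul_apply, Fin.sum_univ_four] at h00
  linarith

/-- The images of the generators form a symplectic basis. -/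
theorem sympl_gn {h : MulAut SurfaceGroup} (hh : h ∈ MCG21) :
    inter (h (gn 0)) (h (gn 1)) = 1 ∧ inter (h (gn 0)) (h (gn 2)) = 0 ∧
    inter (h (gn 0)) (h (gn 3)) = 0 ∧ inter (h (gn 1)) (h (gn 2)) = 0 ∧
    inter (h (gn 1)) (h (gn 3)) = 0 ∧ inter (h (gn 2)) (h (gn 3)) = 1 := by
  have hm : ∀ x y, inter (h x) (h y) = inter x y := hh
  refine ⟨?_, ?_, ?_, ?_, ?_, ?_⟩ <;> rw [hm] <;> simp [inter, ab_gn]

/-- A vector orthogonal to a unimodular pair in a rank two symplectic lattice vanishes. -/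
theorem plane_zero {x y a b c d : ℤ} (h : a * d - b * c = 1) (h1 : x * b - y * a = 0)
    (h2 : x * d - y * c = 0) : x = 0 ∧ y = 0 := by
  constructor
  · linear_combination -x * h + a * h2 - c * h1
  · linear_combination -y * h + b * h2 - d * h1

/-- The matrix of an automorphism with `PropP` is block diagonal or block antidiagonal. -/
theorem block_cases {h : MulAut SurfaceGroup} (hh : h ∈ MCG21) (hP : PropP h) :
    (ab (h (gn 0)) 2 = 0 ∧ ab (h (gn 0)) 3 = 0 ∧ ab (h (gn 1)) 2 = 0 ∧ ab (h (gn 1)) 3 = 0 ∧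
      ab (h (gn 2)) 0 = 0 ∧ ab (h (gn 2)) 1 = 0 ∧ ab (h (gn 3)) 0 = 0 ∧ ab (h (gn 3)) 1 = 0) ∨
    (ab (h (gn 0)) 0 = 0 ∧ ab (h (gn 0)) 1 = 0 ∧ ab (h (gn 1)) 0 = 0 ∧ ab (h (gn 1)) 1 = 0 ∧
      ab (h (gn 2)) 2 = 0 ∧ ab (h (gn 2)) 3 = 0 ∧ ab (h (gn 3)) 2 = 0 ∧ ab (h (gn 3)) 3 = 0) := by
  obtain ⟨h01, h02, h03, h12, h13, h23⟩ := sympl_gn hh
  simp only [inter] at h01 h02 h03 h12 h13 h23
  have p2 := hP (fun i => ab (h (gn 2)) i) (by simp only [wdot]; linarith)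
    (by simp only [wdot]; linarith)
  have p3 := hP (fun i => ab (h (gn 3)) i) (by simp only [wdot]; linarith)
    (by simp only [wdot]; linarith)
  have p23 := hP (fun i => ab (h (gn 2)) i + ab (h (gn 3)) i) (by simp only [wdot]; linarith)
    (by simp only [wdot]; linarith)

  have key : (ab (h (gn 2)) 0 = 0 ∧ ab (h (gn 2)) 1 = 0 ∧ ab (h (gn 3)) 0 = 0 ∧
      ab (h (gn 3)) 1 = 0) ∨ (ab (h (gn 2)) 2 = 0 ∧ ab (h (gn 2)) 3 = 0 ∧
      ab (h (gn 3)) 2 = 0 ∧ ab (h (gn 3)) 3 = 0) := by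
    rcases p2 with ⟨a1, a2⟩ | ⟨a1, a2⟩ <;> rcases p3 with ⟨b1, b2⟩ | ⟨b1, b2⟩
    · exact Or.inl ⟨a1, a2, b1, b2⟩
    · exfalso
      rw [a1, a2, b1, b2] at h23
      simp at h23
    · exfalso
      rw [a1, a2, b1, b2] at h23
      simp at h23
    · exact Or.inr ⟨a1, a2, b1, b2⟩
  rcases key with ⟨a1, a2, a3, a4⟩ | ⟨a1, a2, a3, a4⟩
  · left
    rw [a1, a2, a3, a4] at h23
    rw [a1, a2] at h02 h12
    rw [a3, a4] at h03 h13
    have e : ab (h (gn 2)) 2 * ab (h (gn 3)) 3 - ab (h (gn 2)) 3 * ab (h (gn 3)) 2 = 1 := by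
      linarith
    obtain ⟨c1, c2⟩ := plane_zero e (x := ab (h (gn 0)) 2) (y := ab (h (gn 0)) 3)
      (by linarith) (by linarith)
    obtain ⟨c3, c4⟩ := plane_zero e (x := ab (h (gn 1)) 2) (y := ab (h (gn 1)) 3)
      (by linarith) (by linarith)
    exact ⟨c1, c2, c3, c4, a1, a2, a3, a4⟩
  · right
    rw [a1, a2, a3, a4] at h23
    rw [a1, a2] at h02 h12
    rw [a3, a4] at h03 h13
    have e : ab (h (gn 2)) 0 * ab (h (gn 3)) 1 - ab (h (gn 2)) 1 * ab (h (gn 3)) 0 = 1 := by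
      linarith
    obtain ⟨c1, c2⟩ := plane_zero e (x := ab (h (gn 0)) 0) (y := ab (h (gn 0)) 1)
      (by linarith) (by linarith)
    obtain ⟨c3, c4⟩ := plane_zero e (x := ab (h (gn 1)) 0) (y := ab (h (gn 1)) 1)
      (by linarith) (by linarith)
    exact ⟨c1, c2, c3, c4, a1, a2, a3, a4⟩

theorem FF_left {h s : MulAut SurfaceGroup} (hh : h ∈ MCG21) (hs : s ∈ MCG21)
    (hP : PropP h) : FF (h * s) = FF s ∨ FF (h * s) = 1 - FF s := by
  obtain ⟨h01, h02, h03, h12, h13, h23⟩ := sympl_gn hh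
  obtain ⟨s01, -, -, -, -, -⟩ := sympl_gn hs
  simp only [inter] at h01 h02 h03 h12 h13 h23 s01
  have e : ∀ x i, ab ((h * s) x) i = _ := fun x i => by
    rw [MulAut.mul_apply, ab_mapAut h]
  simp only [FF, e]
  rcases block_cases hh hP with ⟨a1, a2, a3, a4, b1, b2, b3, b4⟩ |
    ⟨a1, a2, a3, a4, b1, b2, b3, b4⟩
  · left
    rw [a1, a2, a3, a4] at h01
    rw [b1, b2, b3, b4]
    linear_combination (ab (s (gn 0)) 0 * ab (s (gn 1)) 1 -
      ab (s (gn 0)) 1 * ab (s (gn 1)) 0) * h01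
  · right
    rw [b1, b2, b3, b4] at h23
    rw [a1, a2, a3, a4]
    linear_combination (ab (s (gn 0)) 2 * ab (s (gn 1)) 3 -
      ab (s (gn 0)) 3 * ab (s (gn 1)) 2) * h23 + s01

theorem FF_right {σ s : MulAut SurfaceGroup} (hσ : σ ∈ MCG21) (hs : s ∈ MCG21)
    (hP : PropP σ) : FF (s * σ) = FF s ∨ FF (s * σ) = 1 - FF s := by
  obtain ⟨h01, h02, h03, h12, h13, h23⟩ := sympl_gn hσ
  obtain ⟨s01, s02, s03, s12, s13, s23⟩ := sympl_gn hs
  simp only [inter] at h01 h02 h03 h12 h13 h23 s01 s02 s03 s12 s13 s23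
  have t := sympl_transpose (fun i => ab (s (gn 0)) i) (fun i => ab (s (gn 1)) i)
    (fun i => ab (s (gn 2)) i) (fun i => ab (s (gn 3)) i) s01 s02 s03 s12 s13 s23

  have e : ∀ x i, ab ((s * σ) x) i = _ := fun x i => by
    rw [MulAut.mul_apply, ab_mapAut s]
  simp only [FF, e]
  rcases block_cases hσ hP with ⟨a1, a2, a3, a4, b1, b2, b3, b4⟩ |
    ⟨a1, a2, a3, a4, b1, b2, b3, b4⟩
  · left
    rw [a1, a2, a3, a4] at h01
    rw [a1, a2, a3, a4]
    linear_combination (ab (s (gn 0)) 0 * ab (s (gn 1)) 1 -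
      ab (s (gn 0)) 1 * ab (s (gn 1)) 0) * h01
  · right
    rw [a1, a2, a3, a4] at h01
    rw [a1, a2, a3, a4]
    linear_combination (ab (s (gn 2)) 0 * ab (s (gn 3)) 1 -
      ab (s (gn 2)) 1 * ab (s (gn 3)) 0) * h01 + t

end MPb95792
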