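import Mathlib

/-!
Definitions for MP_b95792_al: hierarchically hyperbolic spaces and groups in the sense of
Behrstock, Hagen and Sisto (Hierarchically hyperbolic spaces II, 2019).
-/

universe u v

namespace MPb95792

/-! ### Metric preliminaries -/

/-- The distance between two subsets of a metric space (infimum of the distances of points). -/
noncomputable def setDist {Y : Type u} [MetricSpace Y] (A B : Set Y) : ℝ :=
  sInf {r : ℝ | ∃ a ∈ A, ∃ b ∈ B, r = dist a b}

/-- The subset `A` has diameter at most `r`. -/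
def DiamLE {Y : Type u} [MetricSpace Y] (A : Set Y) (r : ℝ) : Prop :=
  ∀ a ∈ A, ∀ b ∈ A, dist a b ≤ r

/-- `γ` restricted to `[0, L]` is a geodesic of length `L`. -/
def IsGeodesic {Y : Type u} [MetricSpace Y] (γ : ℝ → Y) (L : ℝ) : Prop :=
  0 ≤ L ∧ ∀ s ∈ Set.Icc 0 L, ∀ t ∈ Set.Icc 0 L, dist (γ s) (γ t) = |s - t|

/-- Geodesic metric space. -/
def GeodesicSpace (Y : Type u) [MetricSpace Y] : Prop :=
  ∀ p q : Y, ∃ (γ : ℝ → Y) (L : ℝ), IsGeodesic γ L ∧ γ 0 = p ∧ γ L = q

/-- Gromov's four point condition with constant `δ`. -/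
def FourPoint (δ : ℝ) (Y : Type u) [MetricSpace Y] : Prop :=
  ∀ x y z w : Y,
    dist x z + dist y w ≤ max (dist x y + dist z w) (dist x w + dist y z) + 2 * δ

/-- `A` is `k`-quasiconvex: geodesics with endpoints in `A` lie in the closed
`k`-neighbourhood of `A`. -/
def QuasiConvex {Y : Type u} [MetricSpace Y] (k : ℝ) (A : Set Y) : Prop :=
  ∀ (γ : ℝ → Y) (L : ℝ), IsGeodesic γ L → γ 0 ∈ A → γ L ∈ A →
    ∀ s ∈ Set.Icc 0 L, Metric.infDist (γ s) A ≤ k

/-- `q`-quasigeodesic space: any two points are joined by a `(q, q)`-quasigeodesic. -/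
def QuasiGeodesicSpace (q : ℝ) (X : Type u) [MetricSpace X] : Prop :=
  ∀ x y : X, ∃ (γ : ℝ → X) (L : ℝ), 0 ≤ L ∧ γ 0 = x ∧ γ L = y ∧
    ∀ s ∈ Set.Icc 0 L, ∀ t ∈ Set.Icc 0 L,
      |s - t| / q - q ≤ dist (γ s) (γ t) ∧ dist (γ s) (γ t) ≤ q * |s - t| + q

/-! ### Hierarchically hyperbolic spaces -/

/-- The data of a hierarchically hyperbolic structure on `X`: index set with nesting (the
partial order) and orthogonality, the spaces `C W`, the projections `proj W` to them (sending
points to subsets), and the relative projections: `rho V W` is the subset `ρ^V_W` of `C W`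
(used if `V ⊊ W` or `V ⋔ W`) and `rhoDown W V : C W → 2^(C V)` is the map `ρ^W_V` (used if
`V ⊊ W`). -/
structure HHData (X : Type u) where
  /-- the index set -/
  Idx : Type u
  /-- nesting -/
  [nest : PartialOrder Idx]
  /-- orthogonality -/
  orth : Idx → Idx → Prop
  /-- the associated spaces -/
  C : Idx → Type u
  /-- their metrics -/
  [metric : ∀ (W : Idx), MetricSpace (C W)]
  /-- the projections `π_W` -/
  proj : ∀ (W : Idx), X → Set (C W)
  /-- the subsets `ρ^V_W` of `C W` -/
  rho : ∀ (_V W : Idx), Set (C W)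
  /-- the maps `ρ^W_V` from `C W` to `C V` for `V ⊊ W` -/
  rhoDown : ∀ (W V : Idx), C W → Set (C V)

attribute [instance] HHData.nest HHData.metric

namespace HHData

variable {X : Type u} (D : HHData X)

/-- Transversality: not orthogonal and not nested in either direction. -/
def transverse (V W : D.Idx) : Prop := ¬ D.orth V W ∧ ¬ V ≤ W ∧ ¬ W ≤ V

/-- The image `π_W(X)`. -/
def image (W : D.Idx) : Set (D.C W) := ⋃ x, D.proj W x

/-- The spaces `C W` are geodesic and uniformly hyperbolic. -/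
def Hyperbolic : Prop :=
  ∃ δ, 0 ≤ δ ∧ ∀ W, GeodesicSpace (D.C W) ∧ FourPoint δ (D.C W)

/-- Axiom (1), projections: `π_W` sends points to uniformly bounded nonempty sets, is uniformly
coarsely Lipschitz, and has uniformly quasiconvex image. -/
def Projections [MetricSpace X] : Prop :=
  ∃ ξ K : ℝ, ∀ W,
    (∀ x, (D.proj W x).Nonempty ∧ DiamLE (D.proj W x) ξ) ∧
    (∀ x y, setDist (D.proj W x) (D.proj W y) ≤ K * dist x y + K) ∧
    QuasiConvex K (D.image W)

/-- Axioms (2) and (4): the sets `ρ^V_W` are nonempty and uniformly bounded. -/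
def RhoBounded : Prop :=
  ∃ ξ : ℝ, ∀ V W : D.Idx, (V < W ∨ D.transverse V W) →
    (D.rho V W).Nonempty ∧ DiamLE (D.rho V W) ξ

/-- Axiom (2): the maps `ρ^W_V` take nonempty values (required only far away from `ρ^V_W`). -/
def RhoDownNonempty : Prop :=
  ∃ E : ℝ, ∀ V W : D.Idx, V < W → ∀ p : D.C W,
    E < Metric.infDist p (D.rho V W) → (D.rhoDown W V p).Nonempty

/-- Axiom (3), containers. -/
def Containers : Prop :=
  ∀ T U : D.Idx, U ≤ T → (∃ V, V ≤ T ∧ D.orth V U) →
    ∃ W, W < T ∧ ∀ V, V ≤ T → D.orth V U → V ≤ W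

/-- Axiom (4), transversality and consistency. -/
def Consistency : Prop :=
  ∃ κ₀ : ℝ,
    (∀ V W : D.Idx, D.transverse V W → ∀ x,
      min (setDist (D.proj W x) (D.rho V W)) (setDist (D.proj V x) (D.rho W V)) ≤ κ₀) ∧
    (∀ V W : D.Idx, V < W → ∀ x,
      setDist (D.proj W x) (D.rho V W) ≤ κ₀ ∨
      DiamLE (D.proj V x ∪ ⋃ p ∈ D.proj W x, D.rhoDown W V p) κ₀) ∧
    (∀ U V W : D.Idx, U ≤ V → (V < W ∨ (D.transverse V W ∧ ¬ D.orth W U)) →
      setDist (D.rho U W) (D.rho V W) ≤ κ₀)

/-- Axiom (5), finite complexity. -/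
def FiniteComplexity : Prop :=
  ∃ n : ℕ, ∀ s : Finset D.Idx, IsChain (· ≤ ·) (s : Set D.Idx) → s.card ≤ n

/-- Axiom (6), large links. -/
def LargeLinks : Prop :=
  ∃ lam E : ℝ, 1 ≤ lam ∧ ∀ (W : D.Idx) (x x' : X),
    ∃ F : Finset D.Idx,
      (F.card : ℝ) ≤ lam * setDist (D.proj W x) (D.proj W x') + lam ∧
      (∀ T ∈ F, T < W) ∧
      (∀ T, T < W → (∃ T' ∈ F, T ≤ T') ∨ setDist (D.proj T x) (D.proj T x') < E) ∧
      (∀ T ∈ F, setDist (D.proj W x) (D.rho T W) ≤
        lam * setDist (D.proj W x) (D.proj W x') + lam)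

/-- Axiom (7), bounded geodesic image. -/
def BoundedGeodesicImage : Prop :=
  ∃ E : ℝ, 0 < E ∧ ∀ V W : D.Idx, V < W →
    ∀ (γ : ℝ → D.C W) (L : ℝ), IsGeodesic γ L →
      DiamLE (⋃ s ∈ Set.Icc 0 L, D.rhoDown W V (γ s)) E ∨
      ∃ s ∈ Set.Icc 0 L, Metric.infDist (γ s) (D.rho V W) ≤ E

/-- Axiom (8), partial realization. -/
def PartialRealization : Prop :=
  ∃ α : ℝ, ∀ (F : Finset D.Idx),
    (∀ U ∈ F, ∀ V ∈ F, U ≠ V → D.orth U V) →
    ∀ p : (∀ V, D.C V), (∀ V ∈ F, p V ∈ D.image V) →
    ∃ x : X, (∀ V ∈ F, setDist (D.proj V x) {p V} ≤ α) ∧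
      (∀ V ∈ F, ∀ W, V < W → setDist (D.proj W x) (D.rho V W) ≤ α) ∧
      (∀ V ∈ F, ∀ W, D.transverse W V → setDist (D.proj W x) (D.rho V W) ≤ α)

/-- Axiom (9), uniqueness. -/
def Uniqueness [MetricSpace X] : Prop :=
  ∀ κ : ℝ, 0 ≤ κ → ∃ θ : ℝ, ∀ x y : X, θ ≤ dist x y →
    ∃ V : D.Idx, κ ≤ setDist (D.proj V x) (D.proj V y)

end HHData

/-- `D` is a hierarchically hyperbolic structure on the metric space `X`, in the sense of
Behrstock, Hagen and Sisto, HHS II, Definition 1.1. -/
structure IsHHS {X : Type u} [MetricSpace X] (D : HHData X) : Prop where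
  /-- `X` is a quasigeodesic space. -/
  quasigeodesic : ∃ q, 1 ≤ q ∧ QuasiGeodesicSpace q X
  hyperbolic : D.Hyperbolic
  projections : D.Projections
  /-- (2) The index set is empty or has a unique maximal element. -/
  maximal : IsEmpty D.Idx ∨ ∃! S : D.Idx, IsMax S
  rho_bounded : D.RhoBounded
  rhoDown_nonempty : D.RhoDownNonempty
  /-- (3) Orthogonality is symmetric and anti-reflexive, passes to nested elements, and
  orthogonal elements are not nested. -/
  orth_symm : ∀ V W : D.Idx, D.orth V W → D.orth W V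
  orth_irrefl : ∀ V : D.Idx, ¬ D.orth V V
  orth_nest : ∀ V W U : D.Idx, V ≤ W → D.orth W U → D.orth V U
  orth_not_nest : ∀ V W : D.Idx, D.orth V W → ¬ V ≤ W ∧ ¬ W ≤ V
  containers : D.Containers
  consistency : D.Consistency
  finite_complexity : D.FiniteComplexity
  large_links : D.LargeLinks
  bounded_geodesic_image : D.BoundedGeodesicImage
  partial_realization : D.PartialRealization
  uniqueness : D.Uniqueness

/-! ### Hierarchically hyperbolic groups -/

/-- The data of a (quasi-)action of `G` on `(X, D)`: the maps of `X`, the maps of the index set,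
and the maps `C U → C (g U)`. -/
structure HHGData (G : Type v) {X : Type u} (D : HHData X) where
  /-- the maps `X → X` -/
  act : G → X → X
  /-- the maps of the index set -/
  idx : G → D.Idx → D.Idx
  /-- the maps `C U → C (g U)` -/
  iso : ∀ (g : G) (U : D.Idx), D.C U → D.C (idx g U)

namespace HHGData

variable {G : Type v} {X : Type u} {D : HHData X} (A : HHGData G D)

/-- The maps of `X` form a uniform quasi-action by uniformly coarsely Lipschitz maps. -/
def QuasiAction [Group G] [MetricSpace X] : Prop :=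
  ∃ C : ℝ, (∀ g x y, dist (A.act g x) (A.act g y) ≤ C * dist x y + C) ∧
    (∀ x, dist (A.act 1 x) x ≤ C) ∧
    ∀ g h x, dist (A.act (g * h) x) (A.act g (A.act h x)) ≤ C

/-- `G` acts on the index set, preserving nesting and orthogonality. -/
def IndexAction [Group G] : Prop :=
  (∀ U, A.idx 1 U = U) ∧ (∀ g h U, A.idx (g * h) U = A.idx g (A.idx h U)) ∧
  (∀ g V W, A.idx g V ≤ A.idx g W ↔ V ≤ W) ∧
  (∀ g V W, D.orth (A.idx g V) (A.idx g W) ↔ D.orth V W)

/-- The maps `C U → C (g U)` are surjective isometries. -/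
def Isometries : Prop :=
  ∀ g U, (∀ p q, dist (A.iso g U p) (A.iso g U q) = dist p q) ∧
    Function.Surjective (A.iso g U)

/-- The maps are uniformly coarsely compatible with the projections `π_U`. -/
def CompatProj : Prop :=
  ∃ C : ℝ, ∀ (g : G) (U : D.Idx) (x : X),
    setDist (D.proj (A.idx g U) (A.act g x)) (A.iso g U '' D.proj U x) ≤ C

/-- The maps are uniformly coarsely compatible with the sets `ρ^V_U`. -/
def CompatRho : Prop :=
  ∃ C : ℝ, ∀ (g : G) (V U : D.Idx), (V < U ∨ D.transverse V U) →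
    setDist (D.rho (A.idx g V) (A.idx g U)) (A.iso g U '' D.rho V U) ≤ C

/-- The maps are uniformly coarsely compatible with the maps `ρ^U_V` (required only away from
`ρ^V_U`). -/
def CompatRhoDown : Prop :=
  ∃ C : ℝ, ∀ (g : G) (V U : D.Idx), V < U → ∀ p : D.C U,
    C < Metric.infDist p (D.rho V U) →
    ∀ a ∈ D.rhoDown U V p, ∀ b ∈ D.rhoDown (A.idx g U) (A.idx g V) (A.iso g U p),
      dist (A.iso g V a) b ≤ C

end HHGData

/-- `A` is an action by automorphisms of the hierarchically hyperbolic structure, such that the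
uniform quasi-action on `X` is metrically proper and cobounded and the index set has finitely
many orbits: Behrstock, Hagen and Sisto, HHS II, Section 1. -/
structure IsHHGAction {G : Type v} [Group G] {X : Type u} [MetricSpace X] {D : HHData X}
    (A : HHGData G D) : Prop where
  quasi_action : A.QuasiAction
  index_action : A.IndexAction
  isometries : A.Isometries
  compat_proj : A.CompatProj
  compat_rho : A.CompatRho
  compat_rhoDown : A.CompatRhoDown
  cobounded : ∃ (x₀ : X) (R : ℝ), ∀ x, ∃ g : G, dist x (A.act g x₀) ≤ R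
  proper : ∀ (x : X) (R : ℝ), {g : G | dist x (A.act g x) ≤ R}.Finite
  cofinite : ∃ F : Finset D.Idx, ∀ W : D.Idx, ∃ U ∈ F, ∃ g : G, A.idx g U = W

/-- The group `G` is a hierarchically hyperbolic group. -/
def IsHHG (G : Type v) [Group G] : Prop :=
  ∃ (X : Type u) (_ : MetricSpace X) (D : HHData X) (A : HHGData G D),
    IsHHS D ∧ IsHHGAction A

end MPb95792
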