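import Pool.Agent.Helper48.HHG.Defs

/-!
Pointed version of a hierarchically hyperbolic structure (all coarse points replaced by points,
one constant `E`), and the predicates used in the realization theorem.
-/

universe u v

namespace MPb95792

/-- Pointed hierarchically hyperbolic structure over the data `D`
(the fields `proj`, `rho`, `rhoDown` of `D` are not used). -/
structure PHHS {X : Type u} (D : HHData X) where
  p : ∀ (W : D.Idx), X → D.C W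
  r : ∀ (_ W : D.Idx), D.C W
  dn : ∀ (W V : D.Idx), D.C W → D.C V
  E : ℝ
  δ : ℝ
  n : ℕ
  f : ℝ → ℕ
  E_nonneg : 0 ≤ E
  δ_nonneg : 0 ≤ δ
  geod : ∀ W, GeodesicSpace (D.C W)
  hyp : ∀ W, FourPoint δ (D.C W)
  top : IsEmpty D.Idx ∨ ∃ S : D.Idx, ∀ W : D.Idx, W ≤ S
  orth_symm : ∀ V W : D.Idx, D.orth V W → D.orth W V
  orth_nest : ∀ V W U : D.Idx, V ≤ W → D.orth W U → D.orth V U
  orth_not_le : ∀ V W : D.Idx, D.orth V W → ¬ V ≤ W
  containers : ∀ T U : D.Idx, U ≤ T → (∃ V, V ≤ T ∧ D.orth V U) →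
    ∃ W, W < T ∧ ∀ V, V ≤ T → D.orth V U → V ≤ W
  cons_tr : ∀ V W : D.Idx, D.transverse V W → ∀ x,
    dist (p W x) (r V W) ≤ E ∨ dist (p V x) (r W V) ≤ E
  cons_nest : ∀ V W : D.Idx, V < W → ∀ x,
    dist (p W x) (r V W) ≤ E ∨ dist (p V x) (dn W V (p W x)) ≤ E
  rho_cons : ∀ U V W : D.Idx, U ≤ V → (V < W ∨ (D.transverse V W ∧ ¬ D.orth W U)) →
    dist (r U W) (r V W) ≤ E
  chain : ∀ s : Finset D.Idx, IsChain (· ≤ ·) (s : Set D.Idx) → s.card ≤ n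
  links : ∀ (W : D.Idx) (x x' : X) (d : ℝ), dist (p W x) (p W x') ≤ d →
    ∃ F : Finset D.Idx, F.card ≤ f d ∧ (∀ T ∈ F, T < W) ∧
      ∀ T, T < W → (∃ T' ∈ F, T ≤ T') ∨ dist (p T x) (p T x') ≤ E
  bgi : ∀ V W : D.Idx, V < W → ∀ (γ : ℝ → D.C W) (L : ℝ), IsGeodesic γ L →
    (∀ s ∈ Set.Icc 0 L, E < dist (γ s) (r V W)) →
    dist (dn W V (γ 0)) (dn W V (γ L)) ≤ E
  preal : ∀ F : Finset D.Idx, (∀ U ∈ F, ∀ V ∈ F, U ≠ V → D.orth U V) →
    ∀ z : D.Idx → X, ∃ x : X, (∀ V ∈ F, dist (p V x) (p V (z V)) ≤ E) ∧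
      (∀ V ∈ F, ∀ W, (V < W ∨ D.transverse V W) → dist (p W x) (r V W) ≤ E)
  qconv : ∀ (W : D.Idx) (x y : X) (γ : ℝ → D.C W) (L : ℝ), IsGeodesic γ L →
    γ 0 = p W x → γ L = p W y → ∀ s ∈ Set.Icc 0 L, ∃ z, dist (γ s) (p W z) ≤ E

/-- `c` is an `r`-center of the three points. -/
def IsCenter {Y : Type u} [MetricSpace Y] (r : ℝ) (p₁ p₂ p₃ c : Y) : Prop :=
  dist p₁ c + dist c p₂ ≤ dist p₁ p₂ + r ∧
  dist p₁ c + dist c p₃ ≤ dist p₁ p₃ + r ∧
  dist p₂ c + dist c p₃ ≤ dist p₂ p₃ + r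

/-- Level: `Lev D l V` says that chains with top `V` have at most `l` elements. -/
def Lev {X : Type u} (D : HHData X) : ℕ → D.Idx → Prop
  | 0, _ => False
  | l + 1, V => ∀ W : D.Idx, W < V → Lev D l W

namespace PHHS

variable {X : Type u} {D : HHData X} (H : PHHS D)

/-- Consistent tuples. -/
structure Consistent (κ : ℝ) (b : ∀ W : D.Idx, D.C W) : Prop where
  le : H.E ≤ κ
  tr : ∀ V W : D.Idx, D.transverse V W →
    dist (b W) (H.r V W) ≤ κ ∨ dist (b V) (H.r W V) ≤ κ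
  nest : ∀ V W : D.Idx, V < W →
    dist (b W) (H.r V W) ≤ κ ∨ dist (b V) (H.dn W V (b W)) ≤ κ
  near : ∀ W : D.Idx, ∃ x, dist (b W) (H.p W x) ≤ κ

/-- Finite family of pairwise orthogonal elements. -/
def Orth (D : HHData X) (F : Finset D.Idx) : Prop :=
  ∀ U ∈ F, ∀ V ∈ F, U ≠ V → D.orth U V

/-- Partial realization point of the tuple `b` for the family `F`. -/
def PRpt (κ : ℝ) (b : ∀ W : D.Idx, D.C W) (F : Finset D.Idx) (x : X) : Prop :=
  (∀ V ∈ F, dist (b V) (H.p V x) ≤ H.E + κ) ∧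
  (∀ V ∈ F, ∀ W, (V < W ∨ D.transverse V W) → dist (H.p W x) (H.r V W) ≤ H.E)

/-- The elements strictly below `V` on which `x` and `b` differ by more than `ϑ`. -/
def Bad (b : ∀ W : D.Idx, D.C W) (x : X) (ϑ : ℝ) (V W : D.Idx) : Prop :=
  W < V ∧ ϑ < dist (b W) (H.p W x)

/-- The maximal bad elements. -/
def MaxBad (b : ∀ W : D.Idx, D.C W) (x : X) (ϑ : ℝ) (V W : D.Idx) : Prop :=
  H.Bad b x ϑ V W ∧ ∀ W', H.Bad b x ϑ V W' → ¬ W < W'

/-- The order on the maximal bad elements. -/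
def Before (κ : ℝ) (b : ∀ W : D.Idx, D.C W) (x : X) (W W' : D.Idx) : Prop :=
  D.transverse W W' ∧ dist (b W) (H.r W' W) ≤ κ ∧ dist (H.p W' x) (H.r W W') ≤ H.E

/-- Every partial realization point for `F` realizes `b` below `V` on the elements not
orthogonal to some element of `F`. -/
def Verified (κ : ℝ) (b : ∀ W : D.Idx, D.C W) (ϑ : ℝ) (V : D.Idx) (F : Finset D.Idx) : Prop :=
  ∀ x, H.PRpt κ b F x → ∀ T, T ≤ V → (∃ U ∈ F, ¬ D.orth T U) → dist (b T) (H.p T x) ≤ ϑ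

/-- Every partial realization point for `F` realizes `b` below `V`. -/
def Good (κ : ℝ) (b : ∀ W : D.Idx, D.C W) (ϑ : ℝ) (V : D.Idx) (F : Finset D.Idx) : Prop :=
  ∀ x, H.PRpt κ b F x → ∀ T, T ≤ V → dist (b T) (H.p T x) ≤ ϑ

end PHHS

end MPb95792
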