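import Mathlib

/-!
The genus two surface group and its mapping class group (with one puncture), in the
Dehn-Nielsen-Baer form.
-/

universe u v

namespace MPb95792

/-- The commutator. -/
def com {G : Type u} [Group G] (x y : G) : G := x * y * x⁻¹ * y⁻¹

/-- The surface relator `[a₁, b₁][a₂, b₂]`; the generators `a₁, b₁, a₂, b₂` are numbered
`0, 1, 2, 3`. -/
def surfaceRelator : FreeGroup (Fin 4) :=
  com (FreeGroup.of 0) (FreeGroup.of 1) * com (FreeGroup.of 2) (FreeGroup.of 3)

/-- The fundamental group of the closed orientable surface of genus two. -/
def SurfaceGroup : Type := PresentedGroup ({surfaceRelator} : Set (FreeGroup (Fin 4)))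

instance : Group SurfaceGroup :=
  instGroupPresentedGroup ({surfaceRelator} : Set (FreeGroup (Fin 4)))

/-- The generators. -/
def gn (i : Fin 4) : SurfaceGroup :=
  PresentedGroup.of (rels := ({surfaceRelator} : Set (FreeGroup (Fin 4)))) i

/-- Homomorphisms out of the surface group. -/
def surfaceLift {G : Type u} [Group G] (f : Fin 4 → G)
    (h : com (f 0) (f 1) * com (f 2) (f 3) = 1) : SurfaceGroup →* G :=
  PresentedGroup.toGroup (rels := ({surfaceRelator} : Set (FreeGroup (Fin 4)))) (f := f) (by
    intro r hr
    rw [Set.mem_singleton_iff] at hr
    subst hr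
    simpa [surfaceRelator, com] using h)

theorem surfaceLift_of {G : Type u} [Group G] (f : Fin 4 → G)
    (h : com (f 0) (f 1) * com (f 2) (f 3) = 1) (i : Fin 4) :
    surfaceLift f h (gn i) = f i := by
  exact PresentedGroup.toGroup.of (rels := ({surfaceRelator} : Set (FreeGroup (Fin 4)))) _

theorem com_comm_group {G : Type u} [CommGroup G] (x y : G) : com x y = 1 := by
  simp only [com]
  rw [mul_comm x y]
  simp

/-- Exponent sum of the `i`-th generator. -/
def expo (i : Fin 4) : SurfaceGroup →* Multiplicative ℤ :=
  surfaceLift (fun j => if j = i then Multiplicative.ofAdd 1 else 1)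
    (by rw [com_comm_group, com_comm_group, one_mul])

/-- The class of `x` in the first homology group, in the basis given by the generators. -/
def ab (x : SurfaceGroup) (i : Fin 4) : ℤ := Multiplicative.toAdd (expo i x)

/-- The algebraic intersection number. -/
def inter (x y : SurfaceGroup) : ℤ :=
  ab x 0 * ab y 1 - ab x 1 * ab y 0 + (ab x 2 * ab y 3 - ab x 3 * ab y 2)

/-- The subgroup of the automorphisms of the surface group which preserve the algebraic
intersection form (that is, which are orientation preserving). -/
def MCG21 : Subgroup (MulAut SurfaceGroup) where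
  carrier := {φ | ∀ x y, inter (φ x) (φ y) = inter x y}
  one_mem' := fun _ _ => rfl
  mul_mem' := by
    intro φ ψ hφ hψ x y
    rw [MulAut.mul_apply, MulAut.mul_apply, hφ, hψ]
  inv_mem' := by
    intro φ hφ x y
    rw [← hφ, MulAut.apply_inv_self, MulAut.apply_inv_self]

/-- The mapping class group of the closed orientable surface of genus two with one puncture, in
the Dehn-Nielsen-Baer form: the group of orientation preserving automorphisms of the fundamental
group of the closed surface, based at the puncture. -/
def MCGS : Type := MCG21

instance : Group MCGS := Subgroup.toGroup MCG21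

end MPb95792
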